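import Pool.Agent.W236.SC.QDefs

/-! SCQ-CM: existence of the cokernel reflection. -/

set_option autoImplicit false

namespace Pool.Agent.W932.SC

open Pool.Agent.W236.Qv

/-- a linear map between two finite dimensional spaces, bijective when the dimensions agree -/
theorem exMap (C : Type*) [AddCommGroup C] [Module ℚ C] [FiniteDimensional ℚ C]
    (D : Type*) [AddCommGroup D] [Module ℚ D] [FiniteDimensional ℚ D] :
    ∃ (k : C →ₗ[ℚ] D) (l : D →ₗ[ℚ] C), Module.finrank ℚ C = Module.finrank ℚ D →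
      (∀ x, l (k x) = x) ∧ ∀ y, k (l y) = y := by
  by_cases h : Module.finrank ℚ C = Module.finrank ℚ D
  · let E := LinearEquiv.ofFinrankEq C D h
    exact ⟨E.toLinearMap, E.symm.toLinearMap, fun _ => ⟨fun x => E.symm_apply_apply x,
      fun y => E.apply_symm_apply y⟩⟩
  · exact ⟨0, 0, fun h' => absurd h' h⟩

/-- change of the dimension at one vertex -/
theorem exOut {S : Type*} [DecidableEq S] (r : S) (D : S → ℕ) (a : ℕ) :
    ∃ (d : S → ℕ) (e : ∀ i, (Fin (d i) → ℚ) →ₗ[ℚ] (Fin (D i) → ℚ))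
      (g : ∀ i, (Fin (D i) → ℚ) →ₗ[ℚ] (Fin (d i) → ℚ)), d r = a ∧
      (∀ i, i ≠ r → d i = D i) ∧
      (∀ i, i ≠ r → ∀ x, g i (e i x) = x) ∧ ∀ i, i ≠ r → ∀ x, e i (g i x) = x := by
  let d : S → ℕ := Function.update D r a
  have hd : ∀ i, i ≠ r → d i = D i := fun i hi => Function.update_of_ne hi _ _
  have H : ∀ i, ∃ (k : (Fin (d i) → ℚ) →ₗ[ℚ] (Fin (D i) → ℚ))
      (l : (Fin (D i) → ℚ) →ₗ[ℚ] (Fin (d i) → ℚ)), i ≠ r →
      (∀ x, l (k x) = x) ∧ ∀ y, k (l y) = y := by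
    intro i
    obtain ⟨k, l, h⟩ := exMap (Fin (d i) → ℚ) (Fin (D i) → ℚ)
    refine ⟨k, l, fun hi => h ?_⟩
    simp [hd i hi]
  choose e g heg using H
  exact ⟨d, e, g, Function.update_self _ _ _, hd, fun i hi => (heg i hi).1,
    fun i hi => (heg i hi).2⟩

variable {S : Type*} [Fintype S] [DecidableEq S] (G : Gph S)

theorem cmEx : S_CmEx G := by
  intro p r N' hinj
  -- the subspace of families which agree with the image of `N'_r` on the neighbours
  let K : Submodule ℚ (∀ t, Fin (N'.d t) → ℚ) :=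
    { carrier := {y | ∃ x : Fin (N'.d r) → ℚ, ∀ t, G.adj r t = true → N'.f r t x = y t}
      add_mem' := by
        rintro a b ⟨x, hx⟩ ⟨x', hx'⟩
        exact ⟨x + x', fun t ht => by rw [map_add, hx t ht, hx' t ht]; rfl⟩
      zero_mem' := ⟨0, fun t _ => by rw [map_zero]; rfl⟩
      smul_mem' := by
        rintro c a ⟨x, hx⟩
        exact ⟨c • x, fun t ht => by rw [map_smul, hx t ht]; rfl⟩ }
  have hK : ∀ y, y ∈ K ↔ ∃ x : Fin (N'.d r) → ℚ, ∀ t, G.adj r t = true → N'.f r t x = y t :=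
    fun y => Iff.rfl
  let C := (∀ t, Fin (N'.d t) → ℚ) ⧸ K
  obtain ⟨d, e, g, hdr, hd, hge, heg⟩ := exOut r N'.d (Module.finrank ℚ C)
  have H : ∀ j, ∃ (k : C →ₗ[ℚ] (Fin (d j) → ℚ)) (l : (Fin (d j) → ℚ) →ₗ[ℚ] C), j = r →
      (∀ x, l (k x) = x) ∧ ∀ y, k (l y) = y := by
    intro j
    obtain ⟨k, l, h⟩ := exMap C (Fin (d j) → ℚ)
    refine ⟨k, l, fun hj => h ?_⟩
    subst hj
    simp [hdr]
  choose ka la hka using H
  have hk1 := (hka r rfl).1
  have hk2 := (hka r rfl).2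
  let f : ∀ i j : S, (Fin (d i) → ℚ) →ₗ[ℚ] (Fin (d j) → ℚ) := fun t j =>
    if j = r then ka j ∘ₗ K.mkQ ∘ₗ (LinearMap.single ℚ (fun t => Fin (N'.d t) → ℚ) t) ∘ₗ e t
    else if t = r then 0 else g j ∘ₗ N'.f t j ∘ₗ e t
  let N : Rep S := ⟨d, f⟩
  have hfr : ∀ t, N.f t r = ka r ∘ₗ K.mkQ ∘ₗ
      (LinearMap.single ℚ (fun t => Fin (N'.d t) → ℚ) t) ∘ₗ e t := fun t => if_pos rfl
  have hfo : ∀ t j, t ≠ r → j ≠ r → N.f t j = g j ∘ₗ N'.f t j ∘ₗ e t := by
    intro t j ht hj
    show (if j = r then _ else if t = r then _ else _) = _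
    rw [if_neg hj, if_neg ht]
  -- the family attached to `y`
  let F : (∀ t, Fin (N.d t) → ℚ) → (∀ t, Fin (N'.d t) → ℚ) := fun y =>
    ∑ t, if G.adj r t then (LinearMap.single ℚ (fun t => Fin (N'.d t) → ℚ) t) (e t (y t)) else 0
  have hF : ∀ y t, G.adj r t = true → F y t = e t (y t) := by
    intro y t ht
    show (∑ t, if G.adj r t then (LinearMap.single ℚ (fun t => Fin (N'.d t) → ℚ) t) (e t (y t))
      else 0) t = _
    rw [Finset.sum_apply, Finset.sum_eq_single t]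
    · rw [if_pos ht]
      exact Pi.single_eq_same t _
    · intro b _ hb
      split_ifs
      · exact Pi.single_eq_of_ne (Ne.symm hb) _
      · rfl
    · intro h; exact absurd (Finset.mem_univ _) h
  have hsum : ∀ y : ∀ t, Fin (N.d t) → ℚ,
      (∑ t, if G.adj r t then N.f t r (y t) else 0) = ka r (K.mkQ (F y)) := by
    intro y
    show _ = ka r (K.mkQ (∑ t, if G.adj r t then
      (LinearMap.single ℚ (fun t => Fin (N'.d t) → ℚ) t) (e t (y t)) else 0))
    rw [map_sum, map_sum]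
    refine Finset.sum_congr rfl fun t _ => ?_
    split_ifs with h
    · rw [hfr]; rfl
    · rw [map_zero, map_zero]
  refine ⟨N, e, ⟨⟨?_, ?_⟩, hinj, ?_⟩, ?_⟩
  · intro i hi
    exact Function.bijective_iff_has_inverse.mpr ⟨g i, hge i hi, heg i hi⟩
  · intro i j hi hj _
    rw [hfo i j hi hj]
    ext1 x
    ext1
    simp only [LinearMap.comp_apply]
    rw [heg j hj]
  · intro y
    rw [hsum]
    constructor
    · intro h
      have h2 : K.mkQ (F y) = 0 := by
        have := hk1 (K.mkQ (F y))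
        rw [h, map_zero] at this
        exact this.symm
      have h3 : F y ∈ K := (Submodule.Quotient.mk_eq_zero K).mp h2
      obtain ⟨x, hx⟩ := (hK _).mp h3
      exact ⟨x, fun t ht => by rw [hx t ht, hF y t ht]⟩
    · rintro ⟨x, hx⟩
      have h3 : F y ∈ K := (hK _).mpr ⟨x, fun t ht => by rw [hx t ht, hF y t ht]⟩
      have h2 : K.mkQ (F y) = 0 := (Submodule.Quotient.mk_eq_zero K).mpr h3
      rw [h2, map_zero]
  · intro z
    obtain ⟨Y, hY⟩ := K.mkQ_surjective (la r z)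
    refine ⟨fun t => g t (Y t), ?_⟩
    rw [hsum]
    have h1 : K.mkQ (F fun t => g t (Y t)) = K.mkQ Y := by
      refine (Submodule.Quotient.eq K).mpr ?_
      rw [hK]
      refine ⟨0, fun t ht => ?_⟩
      have htr : t ≠ r := by
        rintro rfl
        rw [G.irr] at ht
        exact absurd ht (by decide)
      rw [map_zero]
      show 0 = F (fun t => g t (Y t)) t - Y t
      rw [hF _ t ht, heg t htr, sub_self]
    rw [h1, hY, hk2]

end Pool.Agent.W932.SC
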