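import Pool.Agent.W236.SC.Defs2

/-! SC-LAM: weight identity and positivity of the unfolded form. -/

set_option autoImplicit false
set_option linter.unusedSectionVars false

namespace Pool.Agent.W932.SC

open Pool.Agent.Helper741 Pool.Agent.W236.SC

variable {B : Type*} [Fintype B] [DecidableEq B] (M : CoxeterMatrix B)

/-- the factors of `lam` -/
noncomputable def fac (j c : ℕ) : ℝ :=
  Real.sin (((c : ℝ) + 1) * (Real.pi / (j + 2))) / Real.sin (Real.pi / (j + 2))

theorem lam_eq {L : ℕ} (a : Idx L) : lam a = ∏ j : Fin L, fac j.1 (a j).1 := rfl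

theorem sin_th_pos (j : ℕ) : 0 < Real.sin (Real.pi / (j + 2)) := by
  have hj : (0 : ℝ) ≤ j := Nat.cast_nonneg j
  apply Real.sin_pos_of_pos_of_lt_pi
  · have := Real.pi_pos
    positivity
  · rw [div_lt_iff₀ (by linarith)]
    nlinarith [Real.pi_pos]

theorem fac_pos {j c : ℕ} (h : c < j + 1) : 0 < fac j c := by
  have hj : (0 : ℝ) ≤ j := Nat.cast_nonneg j
  have hc : (0 : ℝ) ≤ c := Nat.cast_nonneg c
  have hc2 : (c : ℝ) + 1 ≤ j + 1 := by exact_mod_cast h
  refine div_pos ?_ (sin_th_pos j)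
  apply Real.sin_pos_of_pos_of_lt_pi
  · have := Real.pi_pos
    positivity
  · rw [← mul_div_assoc, div_lt_iff₀ (by linarith)]
    nlinarith [Real.pi_pos]

theorem fac_zero (j : ℕ) : fac j 0 = 1 := by
  unfold fac
  rw [Nat.cast_zero, zero_add, one_mul]
  exact div_self (sin_th_pos j).ne'

theorem lam_pos {L : ℕ} (a : Idx L) : 0 < lam a := by
  rw [lam_eq]
  exact Finset.prod_pos fun j _ => fac_pos (a j).2

theorem lam_zero (L : ℕ) : lam (fun _ => 0 : Idx L) = 1 := by
  rw [lam_eq]
  exact Finset.prod_eq_one fun j _ => fac_zero j.1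

/-- the trigonometric identity -/
theorem trig (j β : ℕ) (hβ : β < j + 1) :
    (∑ c : Fin (j + 1), if (c.1 + 1 = β ∨ β + 1 = c.1) then fac j c.1 else 0) =
      2 * Real.cos (Real.pi / (j + 2)) * fac j β := by
  rw [Fin.sum_univ_eq_sum_range (fun c => if (c + 1 = β ∨ β + 1 = c) then fac j c else 0) (j + 1)]
  have hs := sin_th_pos j
  have h1 : ∀ c ∈ Finset.range (j + 1), (if (c + 1 = β ∨ β + 1 = c) then fac j c else 0) =
      (if c + 1 = β then fac j c else 0) + (if β + 1 = c then fac j c else 0) := by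
    intro c _
    by_cases hA : c + 1 = β
    · have hB : ¬ (β + 1 = c) := by omega
      rw [if_pos (Or.inl hA), if_pos hA, if_neg hB, add_zero]
    · by_cases hB : β + 1 = c
      · rw [if_pos (Or.inr hB), if_neg hA, if_pos hB, zero_add]
      · rw [if_neg (by tauto), if_neg hA, if_neg hB, add_zero]
  rw [Finset.sum_congr rfl h1, Finset.sum_add_distrib]
  -- lower neighbour
  have hlow : (∑ c ∈ Finset.range (j + 1), if c + 1 = β then fac j c else 0) =
      Real.sin ((β : ℝ) * (Real.pi / (j + 2))) / Real.sin (Real.pi / (j + 2)) := by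
    rcases Nat.eq_zero_or_pos β with h0 | h0
    · subst h0
      rw [Finset.sum_eq_zero]
      · simp
      · intro c _
        rw [if_neg (by omega)]
    · rw [Finset.sum_eq_single (β - 1)]
      · rw [if_pos (by omega)]
        unfold fac
        rw [Nat.cast_sub h0]
        simp
      · intro c _ hc
        rw [if_neg (by omega)]
      · intro h
        exact absurd (Finset.mem_range.mpr (by omega)) h
  have hhigh : (∑ c ∈ Finset.range (j + 1), if β + 1 = c then fac j c else 0) =
      Real.sin (((β : ℝ) + 2) * (Real.pi / (j + 2))) / Real.sin (Real.pi / (j + 2)) := by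
    rw [Finset.sum_ite_eq]
    by_cases h : β + 1 < j + 1
    · rw [if_pos (Finset.mem_range.mpr h)]
      unfold fac
      push_cast
      congr 2
      ring
    · rw [if_neg (by rwa [Finset.mem_range])]
      have hb : (β : ℝ) = j := by
        have : β = j := by omega
        rw [this]
      rw [hb]
      have hne : (j : ℝ) + 2 ≠ 0 := by positivity
      rw [mul_div_cancel₀ _ hne, Real.sin_pi, zero_div]
  rw [hlow, hhigh]
  unfold fac
  set θ := Real.pi / ((j : ℝ) + 2) with hθ
  have e1 : (β : ℝ) * θ = ((β : ℝ) + 1) * θ - θ := by ring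
  have e2 : ((β : ℝ) + 2) * θ = ((β : ℝ) + 1) * θ + θ := by ring
  rw [e1, e2, Real.sin_sub, Real.sin_add]
  field_simp
  ring

theorem lam_update {L : ℕ} (b : Idx L) (j : Fin L) (c : Fin (j.1 + 1)) :
    lam (Function.update b j c : Idx L) =
      fac j.1 c.1 * ∏ i ∈ Finset.univ.erase j, fac i.1 (b i).1 := by
  rw [lam_eq, ← Finset.mul_prod_erase Finset.univ _ (Finset.mem_univ j), Function.update_self]
  congr 1
  refine Finset.prod_congr rfl fun i hi => ?_
  rw [Function.update_of_ne (Finset.ne_of_mem_erase hi)]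

theorem lam_split {L : ℕ} (b : Idx L) (j : Fin L) :
    lam b = fac j.1 (b j).1 * ∏ i ∈ Finset.univ.erase j, fac i.1 (b i).1 := by
  rw [lam_eq, ← Finset.mul_prod_erase Finset.univ _ (Finset.mem_univ j)]

theorem unf_adj (L : ℕ) (x y : B × Idx L) : (unf M L).adj x y = true ↔
    (x.1 ≠ y.1 ∧ ∃ j : Fin L, M x.1 y.1 = j.1 + 2 ∧
      ((x.2 j).1 + 1 = (y.2 j).1 ∨ (y.2 j).1 + 1 = (x.2 j).1) ∧ ∀ i, i ≠ j → x.2 i = y.2 i) := by
  unfold unf
  exact decide_eq_true_iff

theorem lamAdj : S_LamAdj M := by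
  intro L hM
  refine ⟨lam_pos, lam_zero L, fun s t b hst => ?_⟩
  have hm := hM s t hst
  let j : Fin L := ⟨M s t - 2, by omega⟩
  have hj : M s t = j.1 + 2 := by show M s t = M s t - 2 + 2; omega
  have hadj : ∀ a : Idx L, (unf M L).adj (s, a) (t, b) = true ↔
      (((a j).1 + 1 = (b j).1 ∨ (b j).1 + 1 = (a j).1) ∧ ∀ i, i ≠ j → a i = b i) := by
    intro a
    rw [unf_adj]
    constructor
    · rintro ⟨-, j', h1, h2, h3⟩
      have : j' = j := by
        apply Fin.ext
        have h1' : M s t = j'.1 + 2 := h1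
        omega
      subst this
      exact ⟨h2, h3⟩
    · rintro ⟨h2, h3⟩
      exact ⟨hst, j, hj, h2, h3⟩
  have hinj : Function.Injective (fun c : Fin (j.1 + 1) => (Function.update b j c : Idx L)) :=
    Function.update_injective b j
  have hsum := Fintype.sum_of_injective
    (fun c : Fin (j.1 + 1) => (Function.update b j c : Idx L)) hinj
    (fun c => if (c.1 + 1 = (b j).1 ∨ (b j).1 + 1 = c.1) then
      fac j.1 c.1 * ∏ i ∈ Finset.univ.erase j, fac i.1 (b i).1 else 0)
    (fun a => if (unf M L).adj (s, a) (t, b) then lam a else 0) ?_ ?_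
  · rw [← hsum]
    have h2 : ∀ c : Fin (j.1 + 1), (if (c.1 + 1 = (b j).1 ∨ (b j).1 + 1 = c.1) then
        fac j.1 c.1 * ∏ i ∈ Finset.univ.erase j, fac i.1 (b i).1 else 0) =
        (if (c.1 + 1 = (b j).1 ∨ (b j).1 + 1 = c.1) then fac j.1 c.1 else 0) *
          ∏ i ∈ Finset.univ.erase j, fac i.1 (b i).1 := by
      intro c
      rw [ite_mul, zero_mul]
    rw [Finset.sum_congr rfl fun c _ => h2 c, ← Finset.sum_mul, trig j.1 (b j).1 (b j).2,
      lam_split b j]
    have hc : cc M s t = Real.cos (Real.pi / ((j.1 : ℝ) + 2)) := by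
      unfold cc
      rw [hj]
      push_cast
      rfl
    rw [hc]
    ring
  · intro a ha
    rw [if_neg]
    intro h
    apply ha
    refine ⟨a j, ?_⟩
    funext i
    by_cases hi : i = j
    · subst hi
      exact Function.update_self _ _ _
    · show (Function.update b j (a j) : Idx L) i = a i
      rw [Function.update_of_ne hi]
      exact (((hadj a).mp h).2 i hi).symm
  · intro c
    show (if (c.1 + 1 = (b j).1 ∨ (b j).1 + 1 = c.1) then
      fac j.1 c.1 * ∏ i ∈ Finset.univ.erase j, fac i.1 (b i).1 else 0) =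
      if (unf M L).adj (s, (Function.update b j c : Idx L)) (t, b) = true then
        lam (Function.update b j c : Idx L) else 0
    rw [lam_update]
    have h1 : (unf M L).adj (s, (Function.update b j c : Idx L)) (t, b) = true ↔
        (c.1 + 1 = (b j).1 ∨ (b j).1 + 1 = c.1) := by
      rw [hadj, Function.update_self]
      constructor
      · exact fun h => h.1
      · exact fun h => ⟨h, fun i hi => Function.update_of_ne hi _ _⟩
    by_cases h : (c.1 + 1 = (b j).1 ∨ (b j).1 + 1 = c.1)
    · rw [if_pos h, if_pos (h1.mpr h)]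
    · rw [if_neg h, if_neg (fun h' => h (h1.mp h'))]


theorem frm_expand (y : B → ℝ) :
    frm M y y = ∑ s, ∑ t, -2 * cc M s t * (y s * y t) := by
  unfold frm coroot
  refine Finset.sum_congr rfl fun s _ => ?_
  rw [LinearMap.sum_apply, Finset.mul_sum]
  refine Finset.sum_congr rfl fun t _ => ?_
  show y s * ((-2 * cc M s t) * y t) = _
  ring

/-- weighted Cauchy-Schwarz for one pair of vertices -/
theorem pair_bound {L : ℕ} (hM : ∀ i j, i ≠ j → 2 ≤ M i j ∧ M i j ≤ L + 1) (hL : S_LamAdj M)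
    (s t : B) (hst : s ≠ t) (x z : Idx L → ℝ) :
    (∑ a, ∑ b, if (unf M L).adj (s, a) (t, b) then x a * z b else 0) ≤
      2 * cc M s t * (Real.sqrt (∑ a, x a ^ 2) * Real.sqrt (∑ b, z b ^ 2)) := by
  obtain ⟨hpos, -, hid⟩ := hL L hM
  have hm := hM s t hst
  have hc : 0 ≤ cc M s t := by
    unfold cc
    have h2 : (2 : ℝ) ≤ (M s t : ℝ) := by exact_mod_cast hm.1
    apply Real.cos_nonneg_of_neg_pi_div_two_le_of_le
    · have : 0 ≤ Real.pi / (M s t : ℝ) := by
        have := Real.pi_pos
        positivity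
      linarith [Real.pi_pos]
    · exact div_le_div_of_nonneg_left Real.pi_pos.le (by norm_num) h2
  let A : Idx L → Idx L → Prop := fun a b => (unf M L).adj (s, a) (t, b) = true
  let f : Idx L × Idx L → ℝ := fun p =>
    if (unf M L).adj (s, p.1) (t, p.2) then x p.1 * Real.sqrt (lam p.2 / lam p.1) else 0
  let g : Idx L × Idx L → ℝ := fun p =>
    if (unf M L).adj (s, p.1) (t, p.2) then z p.2 * Real.sqrt (lam p.1 / lam p.2) else 0
  have hCS := Finset.sum_mul_sq_le_sq_mul_sq Finset.univ f g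
  have hfg : ∀ p : Idx L × Idx L, f p * g p =
      if (unf M L).adj (s, p.1) (t, p.2) then x p.1 * z p.2 else 0 := by
    intro p
    show (if (unf M L).adj (s, p.1) (t, p.2) then x p.1 * Real.sqrt (lam p.2 / lam p.1) else 0) *
      (if (unf M L).adj (s, p.1) (t, p.2) then z p.2 * Real.sqrt (lam p.1 / lam p.2) else 0) = _
    split_ifs with h
    · have h1 : Real.sqrt (lam p.2 / lam p.1) * Real.sqrt (lam p.1 / lam p.2) = 1 := by
        rw [← Real.sqrt_mul (div_pos (hpos _) (hpos _)).le, div_mul_div_comm,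
          mul_comm (lam p.2) (lam p.1), div_self (mul_pos (hpos _) (hpos _)).ne', Real.sqrt_one]
      calc x p.1 * Real.sqrt (lam p.2 / lam p.1) * (z p.2 * Real.sqrt (lam p.1 / lam p.2))
          = x p.1 * z p.2 * (Real.sqrt (lam p.2 / lam p.1) * Real.sqrt (lam p.1 / lam p.2)) := by
            ring
        _ = _ := by rw [h1, mul_one]
    · rw [mul_zero]
  have hff : ∑ p, f p ^ 2 = 2 * cc M s t * ∑ a, x a ^ 2 := by
    rw [Fintype.sum_prod_type, Finset.mul_sum]
    refine Finset.sum_congr rfl fun a _ => ?_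
    have h1 : ∀ b, f (a, b) ^ 2 = x a ^ 2 / lam a *
        (if (unf M L).adj (t, b) (s, a) then lam b else 0) := by
      intro b
      show (if (unf M L).adj (s, a) (t, b) then x a * Real.sqrt (lam b / lam a) else 0) ^ 2 = _
      rw [(unf M L).symm (t, b) (s, a)]
      split_ifs with h
      · rw [mul_pow, Real.sq_sqrt (div_pos (hpos _) (hpos _)).le]
        ring
      · ring
    rw [Finset.sum_congr rfl fun b _ => h1 b, ← Finset.mul_sum, hid t s a (Ne.symm hst),
      cc_symm M t s]
    have := (hpos a).ne'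
    field_simp
  have hgg : ∑ p, g p ^ 2 = 2 * cc M s t * ∑ b, z b ^ 2 := by
    rw [Fintype.sum_prod_type, Finset.sum_comm, Finset.mul_sum]
    refine Finset.sum_congr rfl fun b _ => ?_
    have h1 : ∀ a, g (a, b) ^ 2 = z b ^ 2 / lam b *
        (if (unf M L).adj (s, a) (t, b) then lam a else 0) := by
      intro a
      show (if (unf M L).adj (s, a) (t, b) then z b * Real.sqrt (lam a / lam b) else 0) ^ 2 = _
      split_ifs with h
      · rw [mul_pow, Real.sq_sqrt (div_pos (hpos _) (hpos _)).le]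
        ring
      · ring
    rw [Finset.sum_congr rfl fun a _ => h1 a, ← Finset.mul_sum, hid s t b hst]
    have := (hpos b).ne'
    field_simp
  rw [Finset.sum_congr rfl fun p _ => hfg p, Fintype.sum_prod_type, hff, hgg] at hCS
  have hx : 0 ≤ ∑ a, x a ^ 2 := Finset.sum_nonneg fun a _ => sq_nonneg _
  have hz : 0 ≤ ∑ b, z b ^ 2 := Finset.sum_nonneg fun b _ => sq_nonneg _
  have hR : 0 ≤ 2 * cc M s t * (Real.sqrt (∑ a, x a ^ 2) * Real.sqrt (∑ b, z b ^ 2)) := by
    positivity
  have hsq : (∑ a, ∑ b, if (unf M L).adj (s, a) (t, b) then x a * z b else 0) ^ 2 ≤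
      (2 * cc M s t * (Real.sqrt (∑ a, x a ^ 2) * Real.sqrt (∑ b, z b ^ 2))) ^ 2 := by
    refine hCS.trans (le_of_eq ?_)
    rw [mul_pow, mul_pow (Real.sqrt _), Real.sq_sqrt hx, Real.sq_sqrt hz]
    ring
  exact (le_abs_self _).trans (abs_le_of_sq_le_sq hsq hR)

theorem unfPD (hL : S_LamAdj M) : S_UnfPD M := by
  intro L hM hP x hx
  let y : B → ℝ := fun s => Real.sqrt (∑ a, x (s, a) ^ 2)
  have hy2 : ∀ s, y s ^ 2 = ∑ a, x (s, a) ^ 2 := fun s =>
    Real.sq_sqrt (Finset.sum_nonneg fun a _ => sq_nonneg _)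
  have hy : y ≠ 0 := by
    intro h0
    apply hx
    funext p
    obtain ⟨s, a⟩ := p
    have h1 : ∑ a, x (s, a) ^ 2 = 0 := by
      rw [← hy2 s, congrFun h0 s]
      simp
    have h2 := (Finset.sum_eq_zero_iff_of_nonneg (fun a _ => sq_nonneg (x (s, a)))).mp h1 a
      (Finset.mem_univ a)
    exact pow_eq_zero_iff (two_ne_zero) |>.mp h2
  refine lt_of_lt_of_le (hP y hy) ?_
  have hT : (∑ i, x i * (2 * x i - ∑ t, if (unf M L).adj i t then x t else 0)) =
      ∑ s, ∑ t, ((if s = t then 2 * y s ^ 2 else 0) -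
        ∑ a, ∑ b, if (unf M L).adj (s, a) (t, b) then x (s, a) * x (t, b) else 0) := by
    rw [Fintype.sum_prod_type]
    refine Finset.sum_congr rfl fun s _ => ?_
    rw [Finset.sum_sub_distrib, Finset.sum_ite_eq, if_pos (Finset.mem_univ s), hy2 s,
      Finset.mul_sum]
    rw [Finset.sum_comm, ← Finset.sum_sub_distrib]
    refine Finset.sum_congr rfl fun a _ => ?_
    rw [mul_sub, Finset.mul_sum, Fintype.sum_prod_type]
    congr 1
    · ring
    · refine Finset.sum_congr rfl fun t _ => Finset.sum_congr rfl fun b _ => ?_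
      rw [mul_ite, mul_zero]
  rw [hT, frm_expand]
  refine Finset.sum_le_sum fun s _ => Finset.sum_le_sum fun t _ => ?_
  by_cases hst : s = t
  · subst hst
    rw [if_pos rfl, cc_self]
    have h0 : (∑ a, ∑ b, if (unf M L).adj (s, a) (s, b) then x (s, a) * x (s, b) else 0) = 0 := by
      refine Finset.sum_eq_zero fun a _ => Finset.sum_eq_zero fun b _ => ?_
      rw [if_neg]
      intro h
      exact ((unf_adj M L _ _).mp h).1 rfl
    rw [h0]
    apply le_of_eq
    ring
  · rw [if_neg hst]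
    have := pair_bound M hM hL s t hst (fun a => x (s, a)) (fun b => x (t, b))
    have h3 : y s * y t = Real.sqrt (∑ a, x (s, a) ^ 2) * Real.sqrt (∑ b, x (t, b) ^ 2) := rfl
    rw [h3]
    linarith

end Pool.Agent.W932.SC
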