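import Pool.Agent.W932.SC.CmEx

/-! SCQ-MONO: reflection and restriction preserve monomorphisms. -/

set_option autoImplicit false
set_option linter.unusedSectionVars false

namespace Pool.Agent.W932.SC

open Pool.Agent.W236.Qv

/-- lifting through an injective linear map -/
theorem exLift {U W P : Type*} [AddCommGroup U] [Module ℚ U] [AddCommGroup W] [Module ℚ W]
    [AddCommGroup P] [Module ℚ P] (B : U →ₗ[ℚ] P) (A : W →ₗ[ℚ] P) (hB : Function.Injective B)
    (h : ∀ x, ∃ z, B z = A x) : ∃ L : W →ₗ[ℚ] U, ∀ x, B (L x) = A x := by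
  let E := LinearEquiv.ofInjective B hB
  let A' : W →ₗ[ℚ] (LinearMap.range B) := A.codRestrict (LinearMap.range B) (fun x => h x)
  refine ⟨E.symm.toLinearMap ∘ₗ A', fun x => ?_⟩
  have h1 : E (E.symm (A' x)) = A' x := E.apply_symm_apply _
  have h2 := congrArg Subtype.val h1
  exact h2

variable {S : Type*} [Fintype S] [DecidableEq S] (G : Gph S)

theorem rs : S_Rs G := by
  intro p r V
  obtain ⟨d, e, g, hdr, hd, hge, heg⟩ := exOut r V.d 0
  refine ⟨⟨d, fun i j => g j ∘ₗ V.f i j ∘ₗ e i⟩, g, ⟨?_, ?_⟩, hdr⟩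
  · intro i hi
    exact Function.bijective_iff_has_inverse.mpr ⟨e i, heg i hi, hge i hi⟩
  · intro i j hi hj _
    refine LinearMap.ext fun x => ?_
    show g j (V.f i j (e i (g i x))) = g j (V.f i j x)
    rw [heg i hi]

/-- inverse maps of an `OutIso` -/
theorem exInv {p : S → ℕ} {r : S} {V V' : Rep S}
    {e : ∀ i, (Fin (V.d i) → ℚ) →ₗ[ℚ] (Fin (V'.d i) → ℚ)} (h : OutIso G p r V V' e) :
    ∃ g : ∀ i, (Fin (V'.d i) → ℚ) →ₗ[ℚ] (Fin (V.d i) → ℚ), ∀ i, i ≠ r →
      (∀ x, g i (e i x) = x) ∧ ∀ y, e i (g i y) = y := by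
  have H : ∀ i, ∃ g : (Fin (V'.d i) → ℚ) →ₗ[ℚ] (Fin (V.d i) → ℚ), i ≠ r →
      (∀ x, g (e i x) = x) ∧ ∀ y, e i (g y) = y := by
    intro i
    by_cases hi : i = r
    · exact ⟨0, fun h' => absurd hi h'⟩
    · let E := LinearEquiv.ofBijective (e i) (h.bij i hi)
      exact ⟨E.symm.toLinearMap, fun _ => ⟨fun x => E.symm_apply_apply x,
        fun y => E.apply_symm_apply y⟩⟩
  choose g hg using H
  exact ⟨g, hg⟩

/-- arrows after the rotation which avoid `r` are arrows before the rotation -/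
theorem arr_of_rot {p p' : S → ℕ} {r : S} (hR : G.Rot p r p') {i j : S} (hi : i ≠ r) (hj : j ≠ r) :
    G.arr p' i j ↔ G.arr p i j := by
  unfold Gph.arr
  rw [hR.1 i hi, hR.1 j hj]

/-- no arrow into `r` after the rotation -/
theorem not_arr_in {p p' : S → ℕ} {r : S} (hR : G.Rot p r p') (i : S) : ¬ G.arr p' i r := by
  rintro ⟨h1, h2⟩
  have hir : i ≠ r := by
    rintro rfl
    rw [G.irr] at h1
    exact absurd h1 (by decide)
  have h3 : G.adj r i = true := by rw [G.symm]; exact h1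
  have h4 := (hR.2 i h3).2
  rw [hR.1 i hir] at h2
  omega

/-- no arrow out of `r` before the rotation -/
theorem not_arr_out {p p' : S → ℕ} {r : S} (hR : G.Rot p r p') (i : S) : ¬ G.arr p r i := by
  rintro ⟨h1, h2⟩
  have h4 := (hR.2 i h1).1
  omega

theorem adj_ne {r t : S} (h : G.adj r t = true) : t ≠ r := by
  rintro rfl
  rw [G.irr] at h
  exact absurd h (by decide)

theorem arr_ne {p : S → ℕ} {i j : S} (h : G.arr p i j) : i ≠ j := by
  rintro rfl
  exact absurd h.2 (lt_irrefl _)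

/-- neighbours have an arrow into `r` before the rotation -/
theorem arr_in {p p' : S → ℕ} {r : S} (hR : G.Rot p r p') {t : S} (ht : G.adj r t = true) :
    G.arr p t r := ⟨by rw [G.symm]; exact ht, (hR.2 t ht).1⟩

/-- neighbours have an arrow out of `r` after the rotation -/
theorem arr_out {p p' : S → ℕ} {r : S} (hR : G.Rot p r p') {t : S} (ht : G.adj r t = true) :
    G.arr p' r t := ⟨ht, by rw [hR.1 t (adj_ne G ht)]; exact (hR.2 t ht).2⟩

/-- transport of morphisms outside of `r` -/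
theorem hom_out {p : S → ℕ} {r : S} {V V' M M' : Rep S}
    {e : ∀ i, (Fin (V.d i) → ℚ) →ₗ[ℚ] (Fin (V'.d i) → ℚ)}
    {e' : ∀ i, (Fin (M.d i) → ℚ) →ₗ[ℚ] (Fin (M'.d i) → ℚ)}
    (hV : OutIso G p r V V' e) (hM : OutIso G p r M M' e')
    {g : ∀ i, (Fin (V'.d i) → ℚ) →ₗ[ℚ] (Fin (V.d i) → ℚ)}
    (hg : ∀ i, i ≠ r → (∀ x, g i (e i x) = x) ∧ ∀ y, e i (g i y) = y)
    {φ : ∀ i, (Fin (V.d i) → ℚ) →ₗ[ℚ] (Fin (M.d i) → ℚ)} (hφ : IsHom G p V M φ) {i j : S}
    (hi : i ≠ r) (hj : j ≠ r) (ha : G.arr p i j) (x : Fin (V'.d i) → ℚ) :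
    M'.f i j (e' i (φ i (g i x))) = e' j (φ j (g j (V'.f i j x))) := by
  have h1 := LinearMap.congr_fun (hM.com i j hi hj ha) (φ i (g i x))
  have h2 := LinearMap.congr_fun (hφ i j ha) (g i x)
  have h3 := LinearMap.congr_fun (hV.com i j hi hj ha) (g i x)
  simp only [LinearMap.comp_apply] at h1 h2 h3
  rw [(hg i hi).2] at h3
  rw [h3, (hg j hj).1, h1, h2]

theorem rsMono : S_RsMono G := by
  intro p p' r V V' M M' e e' hR hV h0 hM φ hφ hinj
  obtain ⟨g, hg⟩ := exInv G hV
  have hz : ∀ x : Fin (V'.d r) → ℚ, x = 0 := by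
    intro x
    funext k
    exact absurd k.2 (by omega)
  refine ⟨fun i => e' i ∘ₗ φ i ∘ₗ g i, ?_, ?_⟩
  · intro i j ha
    refine LinearMap.ext fun x => ?_
    show M'.f i j (e' i (φ i (g i x))) = e' j (φ j (g j (V'.f i j x)))
    by_cases hi : i = r
    · subst hi
      rw [hz x]
      simp only [map_zero]
    · have hj : j ≠ r := by
        rintro rfl
        exact not_arr_in G hR i ha
      exact hom_out G hV hM hg hφ hi hj ((arr_of_rot G hR hi hj).mp ha) x
  · intro i x y hxy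
    by_cases hi : i = r
    · subst hi
      rw [hz x, hz y]
    · have h1 := (hM.bij i hi).1 hxy
      have h2 := hinj i h1
      have h3 := congrArg (e i) h2
      rw [(hg i hi).2, (hg i hi).2] at h3
      exact h3

theorem cpMono : S_CpMono G := by
  intro p p' r V V' M M' e e' hR hV hM φ hφ hinj
  obtain ⟨g, hg⟩ := exInv G hV.out
  let B : (Fin (M'.d r) → ℚ) →ₗ[ℚ] (∀ t, Fin (M'.d t) → ℚ) :=
    LinearMap.pi (fun t => if G.adj r t = true then M'.f r t else 0)
  let A : (Fin (V'.d r) → ℚ) →ₗ[ℚ] (∀ t, Fin (M'.d t) → ℚ) :=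
    LinearMap.pi (fun t => if G.adj r t = true then e' t ∘ₗ φ t ∘ₗ g t ∘ₗ V'.f r t else 0)
  have hBt : ∀ z t, G.adj r t = true → B z t = M'.f r t z := by
    intro z t ht
    show (if G.adj r t = true then M'.f r t else 0) z = _
    rw [if_pos ht]
  have hAt : ∀ x t, G.adj r t = true → A x t = e' t (φ t (g t (V'.f r t x))) := by
    intro x t ht
    show (if G.adj r t = true then e' t ∘ₗ φ t ∘ₗ g t ∘ₗ V'.f r t else 0) x = _
    rw [if_pos ht]; rfl
  have hBn : ∀ z t, G.adj r t ≠ true → B z t = 0 := by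
    intro z t ht
    show (if G.adj r t = true then M'.f r t else 0) z = _
    rw [if_neg ht]; rfl
  have hAn : ∀ x t, G.adj r t ≠ true → A x t = 0 := by
    intro x t ht
    show (if G.adj r t = true then e' t ∘ₗ φ t ∘ₗ g t ∘ₗ V'.f r t else 0) x = _
    rw [if_neg ht]; rfl
  have hB : Function.Injective B := by
    rw [← LinearMap.ker_eq_bot, LinearMap.ker_eq_bot']
    intro z hz
    refine hM.inj z fun t ht => ?_
    rw [← hBt z t ht, hz]; rfl
  have hex : ∀ x, ∃ z, B z = A x := by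
    intro x
    have h1 : (∑ t, if G.adj r t then V.f t r (g t (V'.f r t x)) else 0) = 0 :=
      (hV.ex (fun t => g t (V'.f r t x))).mpr ⟨x, fun t ht => ((hg t (adj_ne G ht)).2 _).symm⟩
    have h2 : (∑ t, if G.adj r t then M.f t r (φ t (g t (V'.f r t x))) else 0) = 0 := by
      have h3 : (∑ t, if G.adj r t then M.f t r (φ t (g t (V'.f r t x))) else 0)
          = φ r (∑ t, if G.adj r t then V.f t r (g t (V'.f r t x)) else 0) := by
        rw [map_sum]
        refine Finset.sum_congr rfl fun t _ => ?_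
        by_cases ht : G.adj r t = true
        · rw [if_pos ht, if_pos ht]
          exact LinearMap.congr_fun (hφ t r (arr_in G hR ht)) (g t (V'.f r t x))
        · rw [if_neg ht, if_neg ht, map_zero]
      rw [h3, h1, map_zero]
    obtain ⟨z, hz⟩ := (hM.ex (fun t => φ t (g t (V'.f r t x)))).mp h2
    refine ⟨z, funext fun t => ?_⟩
    by_cases ht : G.adj r t = true
    · rw [hBt z t ht, hAt x t ht, hz t ht]
    · rw [hBn z t ht, hAn x t ht]
  obtain ⟨L, hL⟩ := exLift B A hB hex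
  have hLt : ∀ x t, G.adj r t = true → M'.f r t (L x) = e' t (φ t (g t (V'.f r t x))) := by
    intro x t ht
    rw [← hBt _ t ht, hL x, hAt x t ht]
  let φ' : ∀ i, (Fin (V'.d i) → ℚ) →ₗ[ℚ] (Fin (M'.d i) → ℚ) :=
    Function.update (fun i => e' i ∘ₗ φ i ∘ₗ g i) r L
  have hr : φ' r = L := Function.update_self _ _ _
  have ho : ∀ i, i ≠ r → φ' i = e' i ∘ₗ φ i ∘ₗ g i := fun i hi => Function.update_of_ne hi _ _
  refine ⟨φ', ?_, ?_⟩
  · intro i j ha
    refine LinearMap.ext fun x => ?_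
    rw [LinearMap.comp_apply, LinearMap.comp_apply]
    have hj : j ≠ r := by
      rintro rfl
      exact not_arr_in G hR i ha
    rw [ho j hj]
    by_cases hi : i = r
    · subst hi
      rw [hr]
      exact hLt x j ha.1
    · rw [ho i hi]
      exact hom_out G hV.out hM.out hg hφ hi hj ((arr_of_rot G hR hi hj).mp ha) x
  · intro i
    by_cases hi : i = r
    · subst hi
      rw [hr, ← LinearMap.ker_eq_bot, LinearMap.ker_eq_bot']
      intro x hx
      refine hV.inj x fun t ht => ?_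
      have hti := adj_ne G ht
      have h1 := hLt x t ht
      rw [hx, map_zero] at h1
      have h2 : φ t (g t (V'.f i t x)) = 0 := (hM.out.bij t hti).1 (by rw [← h1, map_zero])
      have h3 : g t (V'.f i t x) = 0 := hinj t (by rw [h2, map_zero])
      rw [← (hg t hti).2 (V'.f i t x), h3, map_zero]
    · rw [ho i hi]
      intro x y hxy
      have h1 := (hM.out.bij i hi).1 hxy
      have h2 := hinj i h1
      have h3 := congrArg (e i) h2
      rw [(hg i hi).2, (hg i hi).2] at h3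
      exact h3

end Pool.Agent.W932.SC
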