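import Pool.Agent.W932.SC.Mono

/-! SCQ-QUOT: reflection and restriction of quotients. -/

set_option autoImplicit false
set_option linter.unusedSectionVars false

namespace Pool.Agent.W932.SC

open Pool.Agent.W236.Qv

/-- extending a linear map defined on the range of another one -/
theorem exExt {Y U W : Type*} [AddCommGroup U] [Module ℚ U] [AddCommGroup W] [Module ℚ W]
    [AddCommGroup Y] [Module ℚ Y] (P : Y →ₗ[ℚ] U) (T : Y →ₗ[ℚ] W)
    (h : ∀ y, P y = 0 → T y = 0) : ∃ L : U →ₗ[ℚ] W, ∀ y, L (P y) = T y := by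
  have hk : LinearMap.ker P ≤ LinearMap.ker T := fun y hy => h y hy
  let T' := (LinearMap.ker P).liftQ T hk
  let L0 : LinearMap.range P →ₗ[ℚ] W := T' ∘ₗ P.quotKerEquivRange.symm.toLinearMap
  obtain ⟨L, hL⟩ := L0.exists_extend
  refine ⟨L, fun y => ?_⟩
  have h1 : L (P y) = L0 ⟨P y, ⟨y, rfl⟩⟩ := by rw [← hL]; rfl
  have h2 : P.quotKerEquivRange.symm ⟨P y, ⟨y, rfl⟩⟩ = (LinearMap.ker P).mkQ y := by
    rw [LinearEquiv.symm_apply_eq]
    rfl
  rw [h1]
  show T' (P.quotKerEquivRange.symm ⟨P y, ⟨y, rfl⟩⟩) = T y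
  rw [h2]
  exact Submodule.liftQ_apply _ _ _

variable {S : Type*} [Fintype S] [DecidableEq S] (G : Gph S)

theorem cpQuot : S_CpQuot G := by
  intro p p' r V V' N N' e e' hR hV hN hSN ψ' hψ' hsurj
  obtain ⟨g', hg'⟩ := exInv G hN.out
  let P : (∀ t, Fin (V.d t) → ℚ) →ₗ[ℚ] (Fin (V.d r) → ℚ) :=
    ∑ t, if G.adj r t = true then V.f t r ∘ₗ LinearMap.proj t else 0
  let T : (∀ t, Fin (V.d t) → ℚ) →ₗ[ℚ] (Fin (N.d r) → ℚ) :=
    ∑ t, if G.adj r t = true then N.f t r ∘ₗ g' t ∘ₗ ψ' t ∘ₗ e t ∘ₗ LinearMap.proj t else 0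
  have hP : ∀ y, P y = ∑ t, if G.adj r t then V.f t r (y t) else 0 := by
    intro y
    show (∑ t, if G.adj r t = true then V.f t r ∘ₗ LinearMap.proj t else 0) y = _
    rw [LinearMap.sum_apply]
    refine Finset.sum_congr rfl fun t _ => ?_
    split_ifs <;> rfl
  have hT : ∀ y, T y = ∑ t, if G.adj r t then N.f t r (g' t (ψ' t (e t (y t)))) else 0 := by
    intro y
    show (∑ t, if G.adj r t = true then N.f t r ∘ₗ g' t ∘ₗ ψ' t ∘ₗ e t ∘ₗ LinearMap.proj t
      else 0) y = _
    rw [LinearMap.sum_apply]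
    refine Finset.sum_congr rfl fun t _ => ?_
    split_ifs <;> rfl
  have hPT : ∀ y, P y = 0 → T y = 0 := by
    intro y hy
    rw [hP] at hy
    obtain ⟨x, hx⟩ := (hV.ex y).mp hy
    rw [hT]
    refine (hN.ex (fun t => g' t (ψ' t (e t (y t))))).mpr ⟨ψ' r x, fun t ht => ?_⟩
    have h1 := LinearMap.congr_fun (hψ' r t (arr_out G hR ht)) x
    simp only [LinearMap.comp_apply] at h1
    rw [h1, hx t ht, (hg' t (adj_ne G ht)).2]
  obtain ⟨L, hL⟩ := exExt P T hPT
  let ψ : ∀ i, (Fin (V.d i) → ℚ) →ₗ[ℚ] (Fin (N.d i) → ℚ) :=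
    Function.update (fun i => g' i ∘ₗ ψ' i ∘ₗ e i) r L
  have hr : ψ r = L := Function.update_self _ _ _
  have ho : ∀ i, i ≠ r → ψ i = g' i ∘ₗ ψ' i ∘ₗ e i := fun i hi => Function.update_of_ne hi _ _
  have hosurj : ∀ i, i ≠ r → Function.Surjective (ψ i) := by
    intro i hi z
    obtain ⟨w, hw⟩ := hsurj i (e' i z)
    obtain ⟨v, hv⟩ := (hV.out.bij i hi).2 w
    refine ⟨v, ?_⟩
    rw [ho i hi]
    show g' i (ψ' i (e i v)) = z
    rw [hv, hw, (hg' i hi).1]
  refine ⟨ψ, ?_, ?_⟩
  · intro i j ha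
    refine LinearMap.ext fun x => ?_
    rw [LinearMap.comp_apply, LinearMap.comp_apply]
    have hi : i ≠ r := by
      rintro rfl
      exact not_arr_out G hR j ha
    rw [ho i hi]
    by_cases hj : j = r
    · subst hj
      rw [hr]
      have h1 := hL (Pi.single i x)
      rw [hP, hT] at h1
      have hadj : G.adj j i = true := by rw [G.symm]; exact ha.1
      rw [Finset.sum_eq_single i, if_pos hadj, Pi.single_eq_same, Finset.sum_eq_single i,
        if_pos hadj, Pi.single_eq_same] at h1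
      · exact h1.symm
      · intro b _ hb
        rw [Pi.single_eq_of_ne hb]
        split_ifs
        · simp only [map_zero]
        · rfl
      · intro h; exact absurd (Finset.mem_univ _) h
      · intro b _ hb
        rw [Pi.single_eq_of_ne hb]
        split_ifs
        · simp only [map_zero]
        · rfl
      · intro h; exact absurd (Finset.mem_univ _) h
    · rw [ho j hj]
      show N.f i j (g' i (ψ' i (e i x))) = g' j (ψ' j (e j (V.f i j x)))
      have h1 := LinearMap.congr_fun (hV.out.com i j hi hj ha) x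
      have h2 := LinearMap.congr_fun (hψ' i j ((arr_of_rot G hR hi hj).mpr ha)) (e i x)
      have h3 := LinearMap.congr_fun (hN.out.com i j hi hj ha) (g' i (ψ' i (e i x)))
      simp only [LinearMap.comp_apply] at h1 h2 h3
      rw [(hg' i hi).2] at h3
      rw [← h1, ← h2, h3, (hg' j hj).1]
  · intro i
    by_cases hi : i = r
    · subst hi
      rw [hr]
      intro z
      obtain ⟨y', hy'⟩ := hSN z
      have H : ∀ t, ∃ y : Fin (V.d t) → ℚ, G.adj i t = true → ψ t y = y' t := by
        intro t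
        by_cases ht : G.adj i t = true
        · obtain ⟨y, hy⟩ := hosurj t (adj_ne G ht) (y' t)
          exact ⟨y, fun _ => hy⟩
        · exact ⟨0, fun h => absurd h ht⟩
      choose y hy using H
      refine ⟨P y, ?_⟩
      rw [hL, hT, ← hy']
      refine Finset.sum_congr rfl fun t _ => ?_
      by_cases ht : G.adj i t = true
      · rw [if_pos ht, if_pos ht, ← hy t ht, ho t (adj_ne G ht)]
        rfl
      · rw [if_neg ht, if_neg ht]
    · exact hosurj i hi

theorem rsQuot : S_RsQuot G := by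
  intro p p' r V V' N' e hR hV h0 hB ψ' hψ' hsurj
  have hzV : ∀ x : Fin (V'.d r) → ℚ, x = 0 := by
    intro x
    funext k
    exact absurd k.2 (by omega)
  have hzN : ∀ x : Fin (N'.d r) → ℚ, x = 0 := by
    intro x
    obtain ⟨w, hw⟩ := hsurj r x
    rw [← hw, hzV w, map_zero]
  have hN0 : N'.d r = 0 := by
    by_contra hne
    have h1 := congrFun (hzN (fun _ => 1)) ⟨0, Nat.pos_of_ne_zero hne⟩
    exact absurd h1 (by norm_num)
  refine ⟨hN0, ⟨hB.1, ?_⟩, fun i => ψ' i ∘ₗ e i, ?_, ?_⟩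
  · intro φ hφ
    refine hB.2 φ fun i j ha => ?_
    have hj : j ≠ r := by
      rintro rfl
      exact not_arr_in G hR i ha
    by_cases hi : i = r
    · subst hi
      refine LinearMap.ext fun x => ?_
      rw [hzN x, map_zero, map_zero]
    · exact hφ i j ((arr_of_rot G hR hi hj).mp ha)
  · intro i j ha
    have hi : i ≠ r := by
      rintro rfl
      exact not_arr_out G hR j ha
    refine LinearMap.ext fun x => ?_
    by_cases hj : j = r
    · subst hj
      rw [hzN (((N'.f i j) ∘ₗ (ψ' i ∘ₗ e i)) x), hzN (((ψ' j ∘ₗ e j) ∘ₗ (V.f i j)) x)]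
    · show N'.f i j (ψ' i (e i x)) = ψ' j (e j (V.f i j x))
      have h1 := LinearMap.congr_fun (hV.com i j hi hj ha) x
      have h2 := LinearMap.congr_fun (hψ' i j ((arr_of_rot G hR hi hj).mpr ha)) (e i x)
      simp only [LinearMap.comp_apply] at h1 h2
      rw [← h1, ← h2]
  · intro i
    by_cases hi : i = r
    · subst hi
      intro z
      exact ⟨0, by rw [map_zero, hzN z]⟩
    · exact (hsurj i).comp (hV.bij i hi).2

end Pool.Agent.W932.SC
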