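import Pool.Agent.W932.SC.Conn

/-! SC-CI: roots of uncontracted edges are inversions of all linear extensions. -/

set_option autoImplicit false
set_option linter.unusedSectionVars false

namespace Pool.Agent.W932.SC

open Pool.Agent.Helper741 Pool.Agent.W236.SC

variable {B : Type*} [Fintype B] [DecidableEq B] {M : CoxeterMatrix B}
variable {W : Type*} [Group W] (cs : CoxeterSystem M W)

theorem pf_succ_mem {q : ℕ → B} {U : Finset ℕ} {k : ℕ} (h : k ∈ U) :
    pf cs q U (k + 1) = pf cs q U k * cs.simple (q k) := by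
  show (if k ∈ U then _ else _) = _
  rw [if_pos h]

theorem pf_succ_not {q : ℕ → B} {U : Finset ℕ} {k : ℕ} (h : k ∉ U) :
    pf cs q U (k + 1) = pf cs q U k := by
  show (if k ∈ U then _ else _) = _
  rw [if_neg h]

theorem aw_start (q : ℕ → B) (U : Finset ℕ) (a : ℕ) (x : B → ℝ) : aw M q U a x a = x := by
  cases a with
  | zero => rfl
  | succ a =>
    show (if a < a + 1 then x else _) = x
    rw [if_pos (Nat.lt_succ_self a)]

theorem aw_mem {q : ℕ → B} {U : Finset ℕ} {a k : ℕ} (x : B → ℝ) (h : a ≤ k) (hk : k ∈ U) :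
    aw M q U a x (k + 1) = sg M (q k) (aw M q U a x k) := by
  show (if k < a then x else if k ∈ U then _ else _) = _
  rw [if_neg (by omega), if_pos hk]

theorem aw_not {q : ℕ → B} {U : Finset ℕ} {a k : ℕ} (x : B → ℝ) (h : a ≤ k) (hk : k ∉ U) :
    aw M q U a x (k + 1) = aw M q U a x k - (aw M q U a x k (q k)) • ee (q k) := by
  show (if k < a then x else if k ∈ U then _ else _) = _
  rw [if_neg (by omega), if_neg hk]

/-- the walk in the coordinates of the root configuration -/
theorem walk_id (q : ℕ → B) (U : Finset ℕ) {p : ℕ} (hp : p ∈ U) (k : ℕ) (hk : p + 1 ≤ k) :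
    geo cs (pf cs q U k) (aw M q U (p + 1) (ee (q p)) k) =
      - rt cs q U p - ∑ j ∈ (Finset.Ico (p + 1) k).filter (fun j => j ∉ U),
        (aw M q U (p + 1) (ee (q p)) j (q j)) • rt cs q U j := by
  induction k, hk using Nat.le_induction with
  | base =>
    rw [aw_start, pf_succ_mem cs hp, map_mul, Module.End.mul_apply, geo_simple, sg_ee_self,
      map_neg]
    simp [rt]
  | succ k hk ih =>
    rw [Nat.Ico_succ_right_eq_insert_Ico hk, Finset.filter_insert]
    by_cases hkU : k ∈ U
    · rw [if_neg (not_not.mpr hkU), pf_succ_mem cs hkU, aw_mem _ hk hkU, map_mul,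
        Module.End.mul_apply, geo_simple, sg_sg]
      exact ih
    · rw [if_pos hkU, pf_succ_not cs hkU, aw_not _ hk hkU, map_sub, map_smul, ih,
        Finset.sum_insert (by simp)]
      show _ - (aw M q U (p + 1) (ee (q p)) k (q k)) • rt cs q U k = _
      abel

theorem ci_claim (hB : BaseF cs) (hF : S_FLIP cs) (hC : S_CROSS cs) (hKEX : S_KEX cs)
    (hKUN : S_KUN cs) (hW : S_WEAK cs) (hDB : S_DB cs) (hDP : S_DP cs)
    (n : ℕ) (q : ℕ → B) (ω y z : W) (s : B) (U U' : Finset ℕ) (hA : AltM M n q)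
    (hl : cs.length y < cs.length (y * cs.simple s)) (hzω : WLe cs z ω)
    (hU : IsK cs n q ω y U) (hU' : IsK cs n q ω (y * cs.simple s) U') (hne : U ≠ U') :
    ∀ (N : ℕ) (x : W), cs.length x = N → WLe cs (y * cs.simple s) x → WLe cs x z →
      ∀ V, IsK cs n q ω x V → Dead cs n q V (geo cs y (ee s)) := by
  obtain ⟨w1, w2, w3, w4, w5, w6, w7⟩ := hW
  have hyys : WLe cs y (y * cs.simple s) := by
    have h1 := wle_down cs (x := y * cs.simple s) (s := s)
    rw [cs.simple_mul_simple_cancel_right] at h1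
    exact h1 hl
  intro N
  induction N using Nat.strong_induction_on with
  | _ N ih =>
    intro x hN hyx hxz V hV
    have hxω : WLe cs x ω := w3 _ _ _ hxz hzω
    by_cases hx : x = y * cs.simple s
    · subst hx
      have hVU : V = U' := hKUN n q ω _ V U' hV hU'
      subst hVU
      have hyω : WLe cs y ω := w3 _ _ _ hyys hxω
      have hωβ : geo cs ω⁻¹ (geo cs y (ee s)) ≤ 0 := (w7 y ω s hl hyω).mp hxω
      have hex : ∃ k, k < n ∧ k ∉ U ∧ rt cs q U k = geo cs y (ee s) := by
        by_contra hcon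
        push Not at hcon
        have h1 := (hC n q ω y s U hl).1 hU (fun k hk hkU => hcon k hk hkU)
        exact hne (hKUN n q ω _ U V h1 hV)
      classical
      let g := Nat.find hex
      obtain ⟨hg1, hg2, hg3⟩ := Nat.find_spec hex
      have hmin : ∀ k, k < g → k ∉ U → rt cs q U k ≠ geo cs y (ee s) := by
        intro k hk hkU h
        exact Nat.find_min hex hk ⟨lt_trans hk hg1, hkU, h⟩
      obtain ⟨g', h1, h2, h3, h4, h5⟩ := (hC n q ω y s U hl).2.1 hU g hg1 hg2 hg3 hmin hωβ
      have hVe : V = insert g (U.erase g') := hKUN n q ω _ _ _ hV h5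
      apply hDB n q ω y s V hA hl hV
      refine ⟨g', h2, ?_, ?_⟩
      · rw [hVe, Finset.mem_insert, Finset.mem_erase]
        rintro (h | h)
        · omega
        · exact h.1 rfl
      · have hfl := hF n q ω U g g' hU.fac h1 hg2 h3 (by rw [hg3, h4])
        rw [hVe, hfl.2.2.2.1 g' h1 le_rfl, hg3, h4, hB.rt_norm _ ⟨y, s, rfl⟩]
        module
    · obtain ⟨t, ht1, ht2⟩ := w6 _ _ hyx (Ne.symm hx)
      set x1 := x * cs.simple t with hx1
      have hx1t : x1 * cs.simple t = x := by rw [hx1, cs.simple_mul_simple_cancel_right]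
      have hl1 : cs.length x1 < cs.length (x1 * cs.simple t) := by rw [hx1t]; exact ht1
      have hx1x : WLe cs x1 x := wle_down cs ht1
      have hx1ω : WLe cs x1 ω := w3 _ _ _ hx1x hxω
      obtain ⟨V1, hV1⟩ := hKEX n q ω x1 ⟨U, hU.fac⟩ hx1ω
      have hD := ih (cs.length x1) (by rw [← hN]; exact ht1) x1 rfl ht2
        (w3 _ _ _ hx1x hxz) V1 hV1
      by_cases hex : ∃ k, k < n ∧ k ∉ V1 ∧ rt cs q V1 k = geo cs x1 (ee t)
      · classical
        let g := Nat.find hex
        obtain ⟨hg1, hg2, hg3⟩ := Nat.find_spec hex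
        have hmin : ∀ k, k < g → k ∉ V1 → rt cs q V1 k ≠ geo cs x1 (ee t) := by
          intro k hk hkU h
          exact Nat.find_min hex hk ⟨lt_trans hk hg1, hkU, h⟩
        have hωβ : geo cs ω⁻¹ (geo cs x1 (ee t)) ≤ 0 := by
          refine (w7 x1 ω t hl1 hx1ω).mp ?_
          rw [hx1t]
          exact hxω
        obtain ⟨g', h1, h2, h3, h4, h5⟩ := (hC n q ω x1 t V1 hl1).2.1 hV1 g hg1 hg2 hg3 hmin hωβ
        have hVe : V = insert g (V1.erase g') := by
          refine hKUN n q ω x _ _ hV ?_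
          rw [hx1t] at h5
          exact h5
        rw [hVe]
        refine hDP n q ω x1 t V1 g g' _ hA hl1 hV1 h5 h1 hg2 h3 hg3 h4 ?_ hD
        intro hβ
        have hβ0 : 0 ≤ geo cs y (ee s) := (geo_nonneg_iff cs y s).mpr hl
        have h6 : geo cs (y * cs.simple s)⁻¹ (geo cs y (ee s)) ≤ 0 := by
          rw [mul_inv_rev, cs.inv_simple, map_mul, Module.End.mul_apply, geo_inv_apply,
            geo_simple, sg_ee_self]
          exact neg_nonpos.mpr (ee_nonneg s)
        have h7 := (w1 _ _).mp ht2 _ ⟨y, s, rfl⟩ hβ0 h6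
        rw [hβ, geo_inv_apply] at h7
        have h8 := h7 t
        have h9 : (ee t : B → ℝ) t = 1 := Pi.single_eq_same _ _
        rw [h9] at h8
        exact absurd h8 (by norm_num)
      · push Not at hex
        have h1 := (hC n q ω x1 t V1 hl1).1 hV1 (fun k hk hkU => hex k hk hkU)
        rw [hx1t] at h1
        have : V = V1 := hKUN n q ω x _ _ hV h1
        rw [this]
        exact hD

theorem ci (hB : BaseF cs) (hF : S_FLIP cs) (hC : S_CROSS cs) (hKEX : S_KEX cs)
    (hKUN : S_KUN cs) (hW : S_WEAK cs) (hAW : S_AW1 cs) (hDB : S_DB cs) (hDP : S_DP cs) :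
    S_CI cs := by
  intro n q ω y z v s U U' Uz hA hl hysz hzω hU hU' hne hUz hv
  obtain ⟨p, hp, hpβ, h0⟩ := ci_claim cs hB hF hC hKEX hKUN hW hDB hDP n q ω y z s U U' hA hl hzω
    hU hU' hne (cs.length z) z rfl hysz (hW.2.1 z) Uz hUz
  have hpn : p < n := hUz.fac.sub p hp
  have hid := walk_id cs q Uz hp n hpn
  rw [h0, map_zero, hpβ] at hid
  have h1 : - geo cs y (ee s) = ∑ j ∈ (Finset.Ico (p + 1) n).filter (fun j => j ∉ Uz),
        (aw M q Uz (p + 1) (ee (q p)) j (q j)) • rt cs q Uz j := (sub_eq_zero.mp hid.symm)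
  have h2 := congrArg (geo cs v⁻¹) h1
  rw [map_neg, map_sum] at h2
  have h3 : 0 ≤ - geo cs v⁻¹ (geo cs y (ee s)) := by
    rw [h2]
    refine Finset.sum_nonneg fun j hj => ?_
    rw [Finset.mem_filter, Finset.mem_Ico] at hj
    rw [map_smul]
    exact smul_nonneg (hAW n q ω Uz p hA hUz.fac hp j (by omega) (by omega) (q j))
      (hv j hj.1.2 hj.2)
  exact neg_nonneg.mp h3

end Pool.Agent.W932.SC
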