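import Pool.Agent.W236.SC.Defs2

/-! SC-CONN: classes are connected; walls span extreme rays. -/

set_option autoImplicit false
set_option linter.unusedSectionVars false

namespace Pool.Agent.W932.SC

open Pool.Agent.Helper741 Pool.Agent.W236.SC

variable {B : Type*} [Fintype B] [DecidableEq B] {M : CoxeterMatrix B}
variable {W : Type*} [Group W] (cs : CoxeterSystem M W)

theorem rt_isRt (q : ℕ → B) (U : Finset ℕ) (k : ℕ) : IsRt cs (rt cs q U k) := ⟨_, _, rfl⟩

theorem wle_down {x : W} {s : B} (h : cs.length (x * cs.simple s) < cs.length x) :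
    WLe cs (x * cs.simple s) x := by
  unfold WLe
  have h1 : (x * cs.simple s)⁻¹ * x = cs.simple s := by
    rw [mul_inv_rev, cs.inv_simple, mul_assoc, inv_mul_cancel, mul_one]
  rw [h1, cs.length_simple]
  rcases cs.length_mul_simple x s with h2 | h2 <;> omega

theorem conn_aux (hB : BaseF cs) (hW : S_WEAK cs) (n : ℕ) (q : ℕ → B) (ω : W) (U : Finset ℕ) (y : W)
    (hy : WLe cs y ω) (hyK : IsK cs n q ω y U) :
    ∀ (N : ℕ) (x : W), cs.length (x⁻¹ * y) = N → WLe cs x ω → IsK cs n q ω x U →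
      Relation.EqvGen (CE cs n q ω U) x y := by
  obtain ⟨w1, w2, w3, w4, w5, w6, w7⟩ := hW
  intro N
  induction N using Nat.strong_induction_on with
  | _ N ih =>
    intro x hN hx hxK
    by_cases h1 : x⁻¹ * y = 1
    · have : x = y := by
        have := congrArg (fun z => x * z) h1
        simpa using this.symm
      rw [this]
      exact Relation.EqvGen.refl _
    obtain ⟨s, hs⟩ := cs.exists_leftDescent_of_ne_one h1
    have hs' : cs.length (cs.simple s * (x⁻¹ * y)) < cs.length (x⁻¹ * y) := hs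
    have hx'y : (x * cs.simple s)⁻¹ * y = cs.simple s * (x⁻¹ * y) := by
      rw [mul_inv_rev, cs.inv_simple, mul_assoc]
    have hyb : geo cs y⁻¹ (geo cs x (ee s)) ≤ 0 := by
      have h2 : geo cs y⁻¹ (geo cs x (ee s)) = geo cs (x⁻¹ * y)⁻¹ (ee s) := by
        rw [mul_inv_rev, inv_inv, map_mul, Module.End.mul_apply]
      rw [h2, geo_nonpos_iff]
      have h3 : (x⁻¹ * y)⁻¹ * cs.simple s = (cs.simple s * (x⁻¹ * y))⁻¹ := by
        rw [mul_inv_rev (cs.simple s), cs.inv_simple]
      rw [h3, cs.length_inv, cs.length_inv]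
      exact hs'
    have hbr : IsRt cs (geo cs x (ee s)) := ⟨x, s, rfl⟩
    have hK' : IsK cs n q ω (x * cs.simple s) U := by
      refine ⟨hxK.fac, fun k hk hkU => ?_⟩
      have h2 : geo cs (x * cs.simple s)⁻¹ (rt cs q U k) =
          geo cs (cs.simple s) (geo cs x⁻¹ (rt cs q U k)) := by
        rw [mul_inv_rev, cs.inv_simple, map_mul, Module.End.mul_apply]
      rw [h2]
      refine hB.rt_simple _ s (hB.rt_geo _ _ (rt_isRt cs q U k)) (hxK.pos k hk hkU) ?_
      intro h3
      have h4 : rt cs q U k = geo cs x (ee s) := by rw [← h3, geo_apply_inv]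
      have h5 := hyK.pos k hk hkU
      rw [h4] at h5
      exact hB.rt_ne _ (hB.rt_geo y⁻¹ _ hbr) (le_antisymm hyb h5)
    have hstep : Relation.EqvGen (CE cs n q ω U) x (x * cs.simple s) ∧
        WLe cs (x * cs.simple s) ω := by
      rcases hB.rt_sign _ hbr with hb | hb
      · have hl := (geo_nonneg_iff cs x s).mp hb
        have h2 : WLe cs (x * cs.simple s) ω :=
          (w7 x ω s hl hx).mpr ((w1 y ω).mp hy _ hbr hb hyb)
        exact ⟨Relation.EqvGen.rel _ _ ⟨h2, hxK, hK', s, rfl, hl⟩, h2⟩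
      · have hl := (geo_nonpos_iff cs x s).mp hb
        have h2 : WLe cs (x * cs.simple s) ω := w3 _ _ _ (wle_down cs hl) hx
        refine ⟨Relation.EqvGen.symm _ _ (Relation.EqvGen.rel _ _ ⟨hx, hK', hxK, s, ?_, hl⟩), h2⟩
        rw [cs.simple_mul_simple_cancel_right]
    refine Relation.EqvGen.trans _ _ _ hstep.1 ?_
    exact ih (cs.length ((x * cs.simple s)⁻¹ * y)) (by rw [hx'y, ← hN]; exact hs') _ rfl
      hstep.2 hK'

theorem conn (hB : BaseF cs) (hW : S_WEAK cs) : S_CONN cs := by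
  intro n q ω U x y hx hy hxK hyK
  exact conn_aux cs hB hW n q ω U y hy hyK _ x rfl hx hxK

theorem ext_ (_hB : BaseF cs) : S_EXT cs := by
  intro n q U v s hv c c' hc hc' hsum
  let T := (Finset.range n).filter (fun k => k ∉ U)
  have hpos : ∀ c : ℕ → ℝ, (∀ k, 0 ≤ c k) → 0 ≤ geo cs v⁻¹ (∑ k ∈ T, c k • rt cs q U k) := by
    intro c hc
    rw [map_sum]
    refine Finset.sum_nonneg fun k hk => ?_
    rw [map_smul]
    rw [Finset.mem_filter, Finset.mem_range] at hk
    exact smul_nonneg (hc k) (hv k hk.1 hk.2)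
  have h1 := hpos c hc
  have h2 := hpos c' hc'
  have h3 := congrArg (geo cs v⁻¹) hsum
  rw [map_add, geo_inv_apply] at h3
  set X := geo cs v⁻¹ (∑ k ∈ T, c k • rt cs q U k) with hX
  set X' := geo cs v⁻¹ (∑ k ∈ T, c' k • rt cs q U k) with hX'
  have h4 : X = X s • (ee s : B → ℝ) := by
    funext i
    show X i = X s * (Pi.single s (1 : ℝ) : B → ℝ) i
    by_cases hi : i = s
    · subst hi
      rw [Pi.single_eq_same, mul_one]
    · have h5 := congrFun h3 i
      have h6 : X i + X' i = (Pi.single s (1 : ℝ) : B → ℝ) i := h5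
      rw [Pi.single_eq_of_ne hi] at h6 ⊢
      have h7 : 0 ≤ X i := h1 i
      have h8 : 0 ≤ X' i := h2 i
      rw [mul_zero]
      linarith
  refine ⟨X s, h1 s, ?_⟩
  have h5 : (∑ k ∈ T, c k • rt cs q U k) = geo cs v X := by rw [hX, geo_apply_inv]
  rw [h5]
  conv_lhs => rw [h4]
  rw [map_smul]

end Pool.Agent.W932.SC
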