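import Pool.Agent.W236.SC.Defs2

/-! SC-PLANE: dihedral facts. -/

set_option autoImplicit false
set_option linter.unusedSectionVars false

namespace Pool.Agent.W932.SC

open Pool.Agent.Helper741 Pool.Agent.W236.SC

variable {B : Type*} [Fintype B] [DecidableEq B] {M : CoxeterMatrix B}
variable {W : Type*} [Group W] (cs : CoxeterSystem M W)

theorem sg_coord (s i : B) (hi : i ≠ s) (x : B → ℝ) : sg M s x i = x i := by
  rw [sg_apply]
  show x i - coroot M s x * (Pi.single s (1 : ℝ) : B → ℝ) i = x i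
  rw [Pi.single_eq_of_ne hi, mul_zero, sub_zero]

theorem geo_coord {s t : B} {d : W} (hd : d ∈ Subgroup.closure {cs.simple s, cs.simple t}) :
    ∀ (x : B → ℝ) (i : B), i ≠ s → i ≠ t → geo cs d x i = x i := by
  induction hd using Subgroup.closure_induction with
  | mem w hw =>
    intro x i hs ht
    rcases hw with rfl | hw
    · rw [geo_simple]; exact sg_coord s i hs x
    · rw [Set.mem_singleton_iff.mp hw, geo_simple]; exact sg_coord t i ht x
  | one => intro x i _ _; rw [map_one, Module.End.one_apply]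
  | mul a b _ _ ha hb =>
    intro x i hs ht
    rw [map_mul, Module.End.mul_apply, ha _ i hs ht, hb x i hs ht]
  | inv a _ ha =>
    intro x i hs ht
    have h1 := ha (geo cs a⁻¹ x) i hs ht
    rw [geo_apply_inv] at h1
    exact h1.symm

theorem not_ee_nonpos (s : B) : ¬ (ee s : B → ℝ) ≤ 0 := by
  intro h
  have h1 := h s
  have h2 : (ee s : B → ℝ) s = 1 := Pi.single_eq_same _ _
  rw [h2] at h1
  exact absurd h1 (by norm_num)

/-- a vector supported on two coordinates -/
theorem two_supp {s t : B} (hst : s ≠ t) {x : B → ℝ} (h : ∀ i, i ≠ s → i ≠ t → x i = 0) :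
    x = x s • ee s + x t • ee t := by
  funext i
  show x i = x s * (Pi.single s (1 : ℝ) : B → ℝ) i + x t * (Pi.single t (1 : ℝ) : B → ℝ) i
  by_cases h1 : i = s
  · subst h1
    rw [Pi.single_eq_same, Pi.single_eq_of_ne hst]; ring
  · by_cases h2 : i = t
    · subst h2
      rw [Pi.single_eq_same, Pi.single_eq_of_ne h1]; ring
    · rw [Pi.single_eq_of_ne h1, Pi.single_eq_of_ne h2, h i h1 h2]; ring

/-- the images of simple roots in the plane under an inverse -/
theorem inv_nonpos (hB : BaseF cs) {s t : B} (hst : s ≠ t) {d : W}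
    (hd : d ∈ Subgroup.closure {cs.simple s, cs.simple t})
    (hs : geo cs d (ee s) ≤ 0) (ht : geo cs d (ee t) ≤ 0) (u : B) (hu : u = s ∨ u = t) :
    geo cs d⁻¹ (ee u) ≤ 0 := by
  have hd' := Subgroup.inv_mem _ hd
  rcases hB.rt_sign _ (hB.rt_geo d⁻¹ _ (hB.rt_ee u)) with h | h
  · exfalso
    have h1 : geo cs d⁻¹ (ee u) = (geo cs d⁻¹ (ee u)) s • ee s + (geo cs d⁻¹ (ee u)) t • ee t := by
      apply two_supp hst
      intro i h1 h2
      rw [geo_coord cs hd' _ i h1 h2]
      apply Pi.single_eq_of_ne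
      rcases hu with rfl | rfl
      · exact h1
      · exact h2
    have h2 := congrArg (geo cs d) h1
    rw [geo_apply_inv, map_add, map_smul, map_smul] at h2
    apply not_ee_nonpos u
    rw [h2]
    have h3 : (geo cs d⁻¹ (ee u)) s • geo cs d (ee s) ≤ 0 := smul_nonpos_of_nonneg_of_nonpos (h s) hs
    have h4 : (geo cs d⁻¹ (ee u)) t • geo cs d (ee t) ≤ 0 := smul_nonpos_of_nonneg_of_nonpos (h t) ht
    exact add_nonpos h3 h4
  · exact h

theorem neg_simple (hB : BaseF cs) {s t : B} (hst : s ≠ t) {d : W}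
    (hd : d ∈ Subgroup.closure {cs.simple s, cs.simple t})
    (hs : geo cs d (ee s) ≤ 0) (ht : geo cs d (ee t) ≤ 0) (u : B) (hu : u = s ∨ u = t) :
    - geo cs d (ee u) = ee s ∨ - geo cs d (ee u) = ee t := by
  have hs' := inv_nonpos cs hB hst hd hs ht s (Or.inl rfl)
  have ht' := inv_nonpos cs hB hst hd hs ht t (Or.inr rfl)
  have hd' := Subgroup.inv_mem _ hd
  have hus : ∀ i, i ≠ s → i ≠ t → (ee u : B → ℝ) i = 0 := by
    intro i h1 h2
    apply Pi.single_eq_of_ne
    rcases hu with rfl | rfl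
    · exact h1
    · exact h2
  have hdu : geo cs d (ee u) ≤ 0 := by
    rcases hu with rfl | rfl
    · exact hs
    · exact ht
  set x := - geo cs d (ee u) with hx
  have hx0 : 0 ≤ x := by rw [hx]; exact neg_nonneg.mpr hdu
  have hxr : IsRt cs x := hB.rt_neg _ (hB.rt_geo _ _ (hB.rt_ee _))
  have hsup : ∀ i, i ≠ s → i ≠ t → x i = 0 := by
    intro i h1 h2
    show - (geo cs d (ee u) i) = 0
    rw [geo_coord cs hd _ i h1 h2, hus i h1 h2, neg_zero]
  have hx2 := two_supp hst hsup
  have h1 : - (ee u : B → ℝ) = x s • geo cs d⁻¹ (ee s) + x t • geo cs d⁻¹ (ee t) := by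
    have h2 := congrArg (geo cs d⁻¹) hx2
    rw [map_add, map_smul, map_smul] at h2
    rw [← h2, hx, map_neg, geo_inv_apply]
  by_cases ha : x s = 0
  · right
    apply hB.rt_supp x t hxr hx0
    intro j hj
    by_cases hjs : j = s
    · rw [hjs]; exact ha
    · exact hsup j hjs hj
  by_cases hb : x t = 0
  · left
    apply hB.rt_supp x s hxr hx0
    intro j hj
    by_cases hjt : j = t
    · rw [hjt]; exact hb
    · exact hsup j hj hjt
  exfalso
  have ha' : 0 < x s := lt_of_le_of_ne (hx0 s) (Ne.symm ha)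
  have hb' : 0 < x t := lt_of_le_of_ne (hx0 t) (Ne.symm hb)
  have key : ∀ z, z = s ∨ z = t → - geo cs d⁻¹ (ee z) = ee u := by
    intro z hz
    have hz0 : geo cs d⁻¹ (ee z) ≤ 0 := by
      rcases hz with rfl | rfl
      · exact hs'
      · exact ht'
    apply hB.rt_supp _ u (hB.rt_neg _ (hB.rt_geo _ _ (hB.rt_ee _))) (neg_nonneg.mpr hz0)
    intro j hj
    have h3 := congrFun h1 j
    have h4 : (- (ee u : B → ℝ)) j = 0 := by
      show - ((Pi.single u (1 : ℝ) : B → ℝ) j) = 0
      rw [Pi.single_eq_of_ne hj, neg_zero]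
    rw [h4] at h3
    have h3' : 0 = x s * geo cs d⁻¹ (ee s) j + x t * geo cs d⁻¹ (ee t) j := h3
    have h5 : geo cs d⁻¹ (ee s) j ≤ 0 := hs' j
    have h6 : geo cs d⁻¹ (ee t) j ≤ 0 := ht' j
    have h7 : geo cs d⁻¹ (ee s) j = 0 := by nlinarith
    have h8 : geo cs d⁻¹ (ee t) j = 0 := by
      rw [h7] at h3'
      have : x t * geo cs d⁻¹ (ee t) j = 0 := by linarith
      exact (mul_eq_zero.mp this).resolve_left hb
    show - (geo cs d⁻¹ (ee z) j) = 0
    rcases hz with rfl | rfl
    · rw [h7, neg_zero]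
    · rw [h8, neg_zero]
  have e1 := key s (Or.inl rfl)
  have e2 := key t (Or.inr rfl)
  have e3 : geo cs d⁻¹ (ee s) = geo cs d⁻¹ (ee t) := neg_injective (e1.trans e2.symm)
  have e4 := geo_injective_apply cs d⁻¹ e3
  have e5 := congrFun e4 s
  have e6 : (ee s : B → ℝ) s = 1 := Pi.single_eq_same _ _
  have e7 : (ee t : B → ℝ) s = 0 := Pi.single_eq_of_ne hst _
  rw [e6, e7] at e5
  exact one_ne_zero e5

theorem plane (hB : BaseF cs) : S_PLANE cs := by
  intro s t hst d hd
  refine ⟨geo_coord cs hd, fun hs ht => ⟨?_, ?_, ?_, ?_⟩⟩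
  · exact neg_simple cs hB hst hd hs ht s (Or.inl rfl)
  · exact neg_simple cs hB hst hd hs ht t (Or.inr rfl)
  · exact inv_nonpos cs hB hst hd hs ht s (Or.inl rfl)
  · exact inv_nonpos cs hB hst hd hs ht t (Or.inr rfl)

/-! ### alternating products -/

/-- the next letter -/
def nx (s t : B) (k : ℕ) : B := if Even k then s else t

theorem nx_two (s t : B) (k : ℕ) : nx s t (k + 2) = nx s t k := by
  unfold nx
  simp [Nat.even_add]

theorem nx_succ (s t : B) (k : ℕ) : nx s t (k + 1) = nx t s k := by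
  unfold nx
  by_cases h : Even k
  · rw [if_pos h, if_neg (by simpa [Nat.even_add_one] using h)]
  · rw [if_neg h, if_pos (by simpa [Nat.even_add_one] using h)]

theorem alt_succ (s t : B) (k : ℕ) : alt cs s t (k + 1) = alt cs s t k * cs.simple (nx s t k) := rfl

theorem alt_succ' (s t : B) (k : ℕ) : alt cs s t (k + 1) = cs.simple s * alt cs t s k := by
  induction k with
  | zero =>
    show 1 * cs.simple (if Even 0 then s else t) = cs.simple s * 1
    simp
  | succ k ih =>
    rw [alt_succ, ih, alt_succ cs t s k, nx_succ, mul_assoc]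

theorem alt_mem (s t : B) (k : ℕ) : alt cs s t k ∈ Subgroup.closure {cs.simple s, cs.simple t} := by
  induction k with
  | zero => exact Subgroup.one_mem _
  | succ k ih =>
    rw [alt_succ]
    refine Subgroup.mul_mem _ ih (Subgroup.subset_closure ?_)
    unfold nx
    split_ifs
    · exact Set.mem_insert _ _
    · exact Set.mem_insert_of_mem _ rfl

theorem cc_nx (s t : B) (k : ℕ) : cc M (nx s t k) (nx s t (k + 1)) = cc M s t := by
  rw [nx_succ]
  unfold nx
  split_ifs
  · rfl
  · exact cc_symm M t s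

theorem geo_alt (s t : B) (k : ℕ) :
    geo cs (alt cs s t k) (ee (nx s t k)) =
      qs (cc M s t) (k + 1) • ee s + qs (cc M s t) k • ee t ∧
    geo cs (alt cs s t (k + 1)) (ee (nx s t (k + 1))) =
      qs (cc M s t) (k + 2) • ee s + qs (cc M s t) (k + 1) • ee t := by
  induction k with
  | zero =>
    constructor
    · show geo cs 1 (ee (nx s t 0)) = _
      rw [map_one, Module.End.one_apply]
      simp [nx]
    · rw [alt_succ]
      show geo cs (1 * cs.simple (nx s t 0)) (ee (nx s t (0 + 1))) = _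
      rw [one_mul, geo_simple]
      have h0 : nx s t 0 = s := by simp [nx]
      have h1 : nx s t (0 + 1) = t := by simp [nx]
      rw [h0, h1, sg_ee, qs_add_two, cc_symm M t s]
      simp only [qs_zero, qs_one, zero_add]
      module
  | succ k ih =>
    refine ⟨ih.2, ?_⟩
    have h1 : geo cs (alt cs s t (k + 1 + 1)) (ee (nx s t (k + 1 + 1))) =
        geo cs (alt cs s t (k + 1)) (ee (nx s t k)) +
          (2 * cc M s t) • geo cs (alt cs s t (k + 1)) (ee (nx s t (k + 1))) := by
      rw [alt_succ cs s t (k + 1), map_mul, Module.End.mul_apply, geo_simple]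
      have h2 : nx s t (k + 1 + 1) = nx s t k := nx_two s t k
      rw [h2, sg_ee, cc_nx, map_add, map_smul]
    have h3 : geo cs (alt cs s t (k + 1)) (ee (nx s t k)) =
        - (qs (cc M s t) (k + 1) • ee s + qs (cc M s t) k • ee t) := by
      rw [alt_succ cs s t k, map_mul, Module.End.mul_apply, geo_simple, sg_ee_self, map_neg, ih.1]
    rw [h1, h3, ih.2]
    have h4 : qs (cc M s t) (k + 1 + 2) = 2 * cc M s t * qs (cc M s t) (k + 2) -
        qs (cc M s t) (k + 1) := qs_add_two _ _
    have h5 : qs (cc M s t) (k + 1 + 1) = 2 * cc M s t * qs (cc M s t) (k + 1) -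
        qs (cc M s t) k := qs_add_two _ _
    have h6 : qs (cc M s t) (k + 2) = qs (cc M s t) (k + 1 + 1) := rfl
    rw [h4, h6, h5]
    module

theorem alt_nonneg {s t : B} (hst : s ≠ t) {k : ℕ} (hk : k < M s t) :
    0 ≤ geo cs (alt cs s t k) (ee (nx s t k)) := by
  rw [(geo_alt cs s t k).1]
  have h1 := qs_nonneg M hst (k := k + 1) (Or.inr hk)
  have h2 := qs_nonneg M hst (k := k) (Or.inr hk.le)
  exact add_nonneg (smul_nonneg h1 (ee_nonneg s)) (smul_nonneg h2 (ee_nonneg t))

theorem length_alt {s t : B} (hst : s ≠ t) {k : ℕ} (hk : k ≤ M s t) :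
    cs.length (alt cs s t k) = k := by
  induction k with
  | zero => exact cs.length_one
  | succ k ih =>
    have h1 := (geo_nonneg_iff cs (alt cs s t k) (nx s t k)).mp (alt_nonneg cs hst hk)
    have h2 := ih (by omega)
    rw [alt_succ]
    rcases cs.length_mul_simple (alt cs s t k) (nx s t k) with h3 | h3 <;> omega

theorem alt_wordProd (s t : B) (k : ℕ) : alt cs s t k = cs.wordProd
    (if Even k then CoxeterSystem.alternatingWord s t k
      else CoxeterSystem.alternatingWord t s k) := by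
  induction k with
  | zero => simp [Pool.Agent.W236.SC.alt, CoxeterSystem.alternatingWord]
  | succ k ih =>
    rw [alt_succ, ih]
    by_cases h : Even k
    · have h' : ¬ Even (k + 1) := by simpa [Nat.even_add_one] using h
      rw [if_pos h, if_neg h', CoxeterSystem.alternatingWord_succ, List.concat_eq_append,
        cs.wordProd_append]
      unfold nx
      rw [if_pos h, cs.wordProd_singleton]
    · have h' : Even (k + 1) := by simpa [Nat.even_add_one] using h
      rw [if_neg h, if_pos h', CoxeterSystem.alternatingWord_succ, List.concat_eq_append,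
        cs.wordProd_append]
      unfold nx
      rw [if_neg h, cs.wordProd_singleton]

theorem alt_braid (s t : B) : alt cs s t (M s t) = alt cs t s (M s t) := by
  rw [alt_wordProd cs s t, alt_wordProd cs t s]
  have h := cs.wordProd_braidWord_eq s t
  unfold CoxeterSystem.braidWord at h
  rw [M.symmetric t s] at h
  split_ifs
  · exact h
  · exact h.symm

theorem alt_inv_nonneg {s t : B} (hst : s ≠ t) {k : ℕ} (hk : k < M s t) :
    0 ≤ geo cs (alt cs s t k)⁻¹ (ee t) := by
  rw [geo_nonneg_iff]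
  have h1 : (alt cs s t k)⁻¹ * cs.simple t = (alt cs t s (k + 1))⁻¹ := by
    rw [alt_succ', mul_inv_rev, cs.inv_simple]
  rw [h1, cs.length_inv, cs.length_inv, length_alt cs hst hk.le,
    length_alt cs (Ne.symm hst) (by rw [M.symmetric]; exact hk)]
  omega

theorem alt_inv_nonpos {s t : B} (hst : s ≠ t) {k : ℕ} (h1k : 1 ≤ k) (hk : k ≤ M s t) :
    geo cs (alt cs s t k)⁻¹ (ee s) ≤ 0 := by
  rw [geo_nonpos_iff]
  obtain ⟨j, rfl⟩ : ∃ j, k = j + 1 := ⟨k - 1, by omega⟩
  have h1 : (alt cs s t (j + 1))⁻¹ * cs.simple s = (alt cs t s j)⁻¹ := by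
    rw [alt_succ', mul_inv_rev, cs.inv_simple, mul_assoc, cs.simple_mul_simple_self, mul_one]
  rw [h1, cs.length_inv, cs.length_inv, length_alt cs hst hk,
    length_alt cs (Ne.symm hst) (by rw [M.symmetric]; omega)]
  omega

theorem altf : S_ALTF cs := by
  intro s t hst h0
  have hm := two_le_of_ne M hst h0
  refine ⟨alt_mem cs s t, fun k hk => alt_nonneg cs hst hk,
    fun k h1 h2 => alt_inv_nonpos cs hst h1 h2, fun k hk => alt_inv_nonneg cs hst hk, ?_, ?_⟩
  · rw [alt_braid, M.symmetric]
    exact alt_inv_nonpos cs (Ne.symm hst) (by rw [M.symmetric]; omega) le_rfl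
  · have h1 := (geo_alt cs s t (M s t - 1)).1
    have h2 : geo cs (alt cs s t (M s t - 1)) (ee (if Even (M s t - 1) then s else t)) =
        qs (cc M s t) (M s t - 1 + 1) • ee s + qs (cc M s t) (M s t - 1) • ee t := h1
    rw [h2]
    have hs := sin_pos_of_ne M hst h0
    have hmr : (M s t : ℝ) ≠ 0 := by exact_mod_cast h0
    have e0 : M s t - 1 + 1 = M s t := by omega
    have e1 : qs (cc M s t) (M s t) = 0 := by
      have h3 := qs_sin (Real.pi / (M s t : ℝ)) (M s t)
      rw [mul_div_cancel₀ _ hmr, Real.sin_pi] at h3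
      exact (mul_eq_zero.mp h3).resolve_right hs.ne'
    have e2 : qs (cc M s t) (M s t - 1) = 1 := by
      have h3 := qs_sin (Real.pi / (M s t : ℝ)) (M s t - 1)
      have h4 : ((M s t - 1 : ℕ) : ℝ) * (Real.pi / (M s t : ℝ)) =
          Real.pi - Real.pi / (M s t : ℝ) := by
        rw [Nat.cast_sub (by omega)]
        push_cast
        field_simp
      rw [h4, Real.sin_pi_sub] at h3
      have h5 : (qs (cc M s t) (M s t - 1) - 1) * Real.sin (Real.pi / (M s t : ℝ)) = 0 := by
        rw [sub_mul, one_mul]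
        exact sub_eq_zero.mpr h3
      have := (mul_eq_zero.mp h5).resolve_right hs.ne'
      linarith
    rw [e0, e1, e2]
    simp

end Pool.Agent.W932.SC
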