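import Pool.Agent.W932.SC.Conn
import Pool.Agent.SphJam.Farkas

/-! SC-WALL: extreme rays and chambers. -/

set_option autoImplicit false
set_option linter.unusedSectionVars false

namespace Pool.Agent.W932.SC

open Pool.Agent.Helper741 Pool.Agent.W236.SC

variable {B : Type*} [Fintype B] [DecidableEq B] {M : CoxeterMatrix B}
variable {W : Type*} [Group W] (cs : CoxeterSystem M W)

theorem vec_expand (x : B → ℝ) : x = ∑ i, x i • (ee i : B → ℝ) := by
  funext j
  rw [Finset.sum_apply]
  simp [Pi.single_apply]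

theorem lin_expand (F : (B → ℝ) →ₗ[ℝ] ℝ) (v : W) (x : B → ℝ) :
    F (geo cs v x) = ∑ i, x i * F (geo cs v (ee i)) := by
  conv_lhs => rw [vec_expand x]
  rw [map_sum, map_sum]
  refine Finset.sum_congr rfl fun i _ => ?_
  rw [map_smul, map_smul, smul_eq_mul]

theorem roots_finite [Finite W] : {x : B → ℝ | IsRt cs x}.Finite := by
  have : {x : B → ℝ | IsRt cs x} = Set.range (fun p : W × B => geo cs p.1 (ee p.2)) := by
    ext x
    constructor
    · rintro ⟨w, i, rfl⟩
      exact ⟨(w, i), rfl⟩
    · rintro ⟨⟨w, i⟩, rfl⟩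
      exact ⟨w, i, rfl⟩
  rw [this]
  exact Set.finite_range _

/-- every linear functional is dominant for some chamber -/
theorem exists_dominant [Finite W] (hB : BaseF cs) (F : (B → ℝ) →ₗ[ℝ] ℝ) :
    ∃ v : W, ∀ i, 0 ≤ F (geo cs v (ee i)) := by
  classical
  have hfin : {x : B → ℝ | IsRt cs x ∧ 0 ≤ x}.Finite :=
    (roots_finite cs).subset fun x hx => hx.1
  let P : Finset (B → ℝ) := hfin.toFinset
  have hP : ∀ x, x ∈ P ↔ IsRt cs x ∧ 0 ≤ x := fun x => by
    rw [Set.Finite.mem_toFinset]; rfl
  let ρ : B → ℝ := ∑ x ∈ P, x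
  have hρ : ∀ i, geo cs (cs.simple i) ρ = ρ - (2 : ℝ) • ee i := by
    intro i
    have hi : (ee i : B → ℝ) ∈ P := (hP _).mpr ⟨hB.rt_ee i, ee_nonneg i⟩
    have h1 : ρ = ee i + ∑ x ∈ P.erase (ee i), x := (Finset.add_sum_erase P (fun x => x) hi).symm
    have hss : ∀ x : B → ℝ, geo cs (cs.simple i) (geo cs (cs.simple i) x) = x := by
      intro x
      rw [geo_simple]
      exact sg_sg M i x
    have hmem : ∀ x ∈ P.erase (ee i), geo cs (cs.simple i) x ∈ P.erase (ee i) := by
      intro x hx
      rw [Finset.mem_erase, hP] at hx ⊢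
      refine ⟨?_, hB.rt_geo _ _ hx.2.1, hB.rt_simple x i hx.2.1 hx.2.2 hx.1⟩
      intro h
      have h2 := congrArg (geo cs (cs.simple i)) h
      rw [hss, geo_simple, sg_ee_self] at h2
      have h3 := hx.2.2 i
      rw [h2] at h3
      have h4 : (-(ee i : B → ℝ)) i = -1 := by
        show -((Pi.single i (1 : ℝ) : B → ℝ) i) = -1
        rw [Pi.single_eq_same]
      rw [h4] at h3
      exact absurd h3 (by norm_num)
    have h2 : geo cs (cs.simple i) (∑ x ∈ P.erase (ee i), x) = ∑ x ∈ P.erase (ee i), x := by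
      rw [map_sum]
      exact Finset.sum_nbij' (fun x => geo cs (cs.simple i) x) (fun x => geo cs (cs.simple i) x)
        hmem hmem (fun x _ => hss x) (fun x _ => hss x) (fun x _ => rfl)
    rw [h1, map_add, h2, geo_simple, sg_ee_self]
    module
  obtain ⟨v, hv⟩ := Finite.exists_max (fun v : W => F (geo cs v ρ))
  refine ⟨v, fun i => ?_⟩
  have h1 := hv (v * cs.simple i)
  rw [map_mul, Module.End.mul_apply, hρ, map_sub, map_smul, map_sub, map_smul, smul_eq_mul] at h1
  linarith

/-- a positive functional value forces a positive root -/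
theorem pos_of_dominant (hB : BaseF cs) (F : (B → ℝ) →ₗ[ℝ] ℝ) (v : W)
    (hv : ∀ i, 0 ≤ F (geo cs v (ee i))) (r : B → ℝ) (hr : IsRt cs r) (h : 0 < F r) :
    0 ≤ geo cs v⁻¹ r := by
  rcases hB.rt_sign _ (hB.rt_geo v⁻¹ r hr) with h1 | h1
  · exact h1
  · exfalso
    have h2 := lin_expand cs F v (geo cs v⁻¹ r)
    rw [geo_apply_inv] at h2
    have h3 : ∑ i, (geo cs v⁻¹ r) i * F (geo cs v (ee i)) ≤ 0 :=
      Finset.sum_nonpos fun i _ => mul_nonpos_of_nonpos_of_nonneg (h1 i) (hv i)
    linarith

/-- walking to the wall of `β` -/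
theorem gallery (hB : BaseF cs) (n : ℕ) (q : ℕ → B) (U : Finset ℕ) (β : B → ℝ) (hβ : IsRt cs β)
    (v' : W) (hβ' : geo cs v'⁻¹ β ≤ 0)
    (hr : ∀ k, k < n → k ∉ U → rt cs q U k ≠ β → 0 ≤ geo cs v'⁻¹ (rt cs q U k)) :
    ∀ (N : ℕ) (v : W), cs.length (v⁻¹ * v') = N → Pos cs n q U v → 0 ≤ geo cs v⁻¹ β →
      ∃ (v1 : W) (s : B), Pos cs n q U v1 ∧ geo cs v1 (ee s) = β := by
  intro N
  induction N using Nat.strong_induction_on with
  | _ N ih =>
    intro v hN hv hvβ
    have h1 : v⁻¹ * v' ≠ 1 := by
      intro h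
      have h2 : v' = v := by
        have := congrArg (fun z => v * z) h
        simpa using this
      rw [h2] at hβ'
      exact hB.rt_ne _ (hB.rt_geo v⁻¹ β hβ) (le_antisymm hβ' hvβ)
    obtain ⟨s, hs⟩ := cs.exists_leftDescent_of_ne_one h1
    have hs' : cs.length (cs.simple s * (v⁻¹ * v')) < cs.length (v⁻¹ * v') := hs
    have hyb : geo cs v'⁻¹ (geo cs v (ee s)) ≤ 0 := by
      have h2 : geo cs v'⁻¹ (geo cs v (ee s)) = geo cs (v⁻¹ * v')⁻¹ (ee s) := by
        rw [mul_inv_rev, inv_inv, map_mul, Module.End.mul_apply]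
      rw [h2, geo_nonpos_iff]
      have h3 : (v⁻¹ * v')⁻¹ * cs.simple s = (cs.simple s * (v⁻¹ * v'))⁻¹ := by
        rw [mul_inv_rev (cs.simple s), cs.inv_simple]
      rw [h3, cs.length_inv, cs.length_inv]
      exact hs'
    by_cases hb : geo cs v (ee s) = β
    · exact ⟨v, s, hv, hb⟩
    have hflip : ∀ x, geo cs (v * cs.simple s)⁻¹ x = geo cs (cs.simple s) (geo cs v⁻¹ x) := by
      intro x
      rw [mul_inv_rev, cs.inv_simple, map_mul, Module.End.mul_apply]
    refine ih _ ?_ (v * cs.simple s) rfl ?_ ?_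
    · rw [mul_inv_rev, cs.inv_simple, mul_assoc, ← hN]
      exact hs'
    · intro k hk hkU
      rw [hflip]
      refine hB.rt_simple _ s (hB.rt_geo _ _ (rt_isRt cs q U k)) (hv k hk hkU) ?_
      intro h3
      have h4 : rt cs q U k = geo cs v (ee s) := by rw [← h3, geo_apply_inv]
      by_cases h5 : rt cs q U k = β
      · exact hb (h4.symm.trans h5)
      · have h6 := hr k hk hkU h5
        rw [h4] at h6
        exact hB.rt_ne _ (hB.rt_geo v'⁻¹ _ ⟨v, s, rfl⟩) (le_antisymm hyb h6)
    · rw [hflip]
      refine hB.rt_simple _ s (hB.rt_geo _ _ hβ) hvβ ?_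
      intro h3
      apply hb
      rw [← h3, geo_apply_inv]

theorem wall [Finite W] (hB : BaseF cs) : S_WALL cs := by
  classical
  intro n q U g hg hgU hπ hE
  obtain ⟨π, hπ⟩ := hπ
  set β := rt cs q U g with hβdef
  have hβ : IsRt cs β := rt_isRt cs q U g
  let T := (Finset.range n).filter (fun k => k ∉ U)
  have hT : ∀ k, k ∈ T ↔ k < n ∧ k ∉ U := fun k => by
    rw [Finset.mem_filter, Finset.mem_range]
  have hgT : g ∈ T := (hT g).mpr ⟨hg, hgU⟩
  -- the functional of `π`
  let f0 : (B → ℝ) → ℝ := fun x => ∑ i, geo cs π⁻¹ x i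
  have hf0 : ∀ k ∈ T, 0 < f0 (rt cs q U k) := by
    intro k hk
    have h1 := hπ k ((hT k).mp hk).1 ((hT k).mp hk).2
    have h2 := hB.rt_ne _ (hB.rt_geo π⁻¹ _ (rt_isRt cs q U k))
    obtain ⟨i, hi⟩ := Function.ne_iff.mp h2
    exact Finset.sum_pos' (fun i _ => h1 i) ⟨i, Finset.mem_univ i,
      lt_of_le_of_ne (h1 i) (Ne.symm hi)⟩
  have hf0s : ∀ (c : ℕ → ℝ), f0 (∑ k ∈ T, c k • rt cs q U k) = ∑ k ∈ T, c k * f0 (rt cs q U k) := by
    intro c
    show ∑ i, geo cs π⁻¹ (∑ k ∈ T, c k • rt cs q U k) i = _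
    rw [map_sum]
    simp only [Finset.sum_apply, map_smul, Pi.smul_apply, smul_eq_mul]
    rw [Finset.sum_comm]
    refine Finset.sum_congr rfl fun k _ => ?_
    rw [← Finset.mul_sum]
  -- Gordan
  let sgn : ℕ → ℝ := fun k => if rt cs q U k = β then 1 else -1
  have key : ∃ F : (B → ℝ) →ₗ[ℝ] ℝ, F β < 0 ∧ ∀ k ∈ T, rt cs q U k ≠ β → 0 < F (rt cs q U k) := by
    rcases SphJam.farkas_strict (U := B → ℝ) (K := {k // k ∈ T})
      (fun k => ∑ i, (sgn k.1 * rt cs q U k.1 i) • LinearMap.proj i) (fun _ => 0) with ⟨a, ha⟩ | hw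
    · have ha' : ∀ k ∈ T, sgn k * ∑ i, a i * rt cs q U k i < 0 := by
        intro k hk
        have h1 := ha ⟨k, hk⟩
        rw [add_zero, LinearMap.sum_apply] at h1
        refine lt_of_eq_of_lt ?_ h1
        rw [Finset.mul_sum]
        refine Finset.sum_congr rfl fun i _ => ?_
        show _ = (sgn k * rt cs q U k i) * a i
        ring
      let F : (B → ℝ) →ₗ[ℝ] ℝ := ∑ i, a i • LinearMap.proj i
      have hF : ∀ x, F x = ∑ i, a i * x i := by
        intro x
        show (∑ i, a i • LinearMap.proj i : (B → ℝ) →ₗ[ℝ] ℝ) x = _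
        rw [LinearMap.sum_apply]
        rfl
      refine ⟨F, ?_, ?_⟩
      · have h1 := ha' g hgT
        have h2 : sgn g = 1 := if_pos rfl
        rw [h2, one_mul] at h1
        rw [hF]
        exact h1
      · intro k hk hne
        have h1 := ha' k hk
        have h2 : sgn k = -1 := if_neg hne
        rw [h2] at h1
        rw [hF]
        linarith
    · exfalso
      obtain ⟨w, hw0, hwne, hwa, -⟩ := hw
      let w' : ℕ → ℝ := fun k => if h : k ∈ T then w ⟨k, h⟩ else 0
      have hw' : ∀ k, 0 ≤ w' k := by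
        intro k
        show 0 ≤ (if h : k ∈ T then w ⟨k, h⟩ else 0)
        split_ifs
        · exact hw0 _
        · exact le_rfl
      have hww : ∀ k : {k // k ∈ T}, w k = w' k.1 := by
        intro k
        show w k = (if h : k.1 ∈ T then w ⟨k.1, h⟩ else 0)
        rw [dif_pos k.2]
      have hrel : ∑ k ∈ T, (w' k * sgn k) • rt cs q U k = 0 := by
        funext i
        rw [Finset.sum_apply]
        have h1 := hwa (Pi.single i 1)
        rw [Pi.zero_apply]
        rw [← h1, ← Finset.sum_coe_sort T]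
        refine Finset.sum_congr rfl fun k _ => ?_
        rw [LinearMap.sum_apply, hww k]
        show (w' k.1 * sgn k.1) * rt cs q U k.1 i =
          w' k.1 * ∑ j, (sgn k.1 * rt cs q U k.1 j) * (Pi.single i (1 : ℝ) : B → ℝ) j
        rw [Finset.sum_eq_single i]
        · rw [Pi.single_eq_same]; ring
        · intro j _ hj
          rw [Pi.single_eq_of_ne hj, mul_zero]
        · intro h; exact absurd (Finset.mem_univ i) h
      -- separate the multiples of `β`
      let wb : ℝ := ∑ k ∈ T, if rt cs q U k = β then w' k else 0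
      let u : ℕ → ℝ := fun k => if rt cs q U k = β then 0 else w' k
      have hu0 : ∀ k, 0 ≤ u k := by
        intro k
        show 0 ≤ (if rt cs q U k = β then 0 else w' k)
        split_ifs
        · exact le_rfl
        · exact hw' k
      have hsplit : ∑ k ∈ T, u k • rt cs q U k = wb • β := by
        have h1 : ∑ k ∈ T, (w' k * sgn k) • rt cs q U k =
            (∑ k ∈ T, (if rt cs q U k = β then w' k else 0) • β) -
              ∑ k ∈ T, u k • rt cs q U k := by
          rw [← Finset.sum_sub_distrib]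
          refine Finset.sum_congr rfl fun k _ => ?_
          show (w' k * (if rt cs q U k = β then 1 else -1)) • rt cs q U k =
            (if rt cs q U k = β then w' k else 0) • β -
              (if rt cs q U k = β then 0 else w' k) • rt cs q U k
          by_cases h : rt cs q U k = β
          · rw [if_pos h, if_pos h, if_pos h, h]; module
          · rw [if_neg h, if_neg h, if_neg h]; module
        rw [hrel] at h1
        have h2 := sub_eq_zero.mp h1.symm
        rw [← h2, ← Finset.sum_smul]
      have hwb0 : 0 ≤ wb := Finset.sum_nonneg fun k _ => by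
        split_ifs
        · exact hw' k
        · exact le_rfl
      have hfβ : 0 < f0 β := hf0 g hgT
      have hfsplit : ∑ k ∈ T, u k * f0 (rt cs q U k) = wb * f0 β := by
        rw [← hf0s, hsplit]
        show ∑ i, geo cs π⁻¹ (wb • β) i = wb * ∑ i, geo cs π⁻¹ β i
        rw [map_smul, Finset.mul_sum]
        rfl
      have hwbpos : 0 < wb := by
        rcases eq_or_lt_of_le hwb0 with h | h
        · exfalso
          rw [← h, zero_mul] at hfsplit
          have h1 := (Finset.sum_eq_zero_iff_of_nonneg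
            (fun k hk => mul_nonneg (hu0 k) (hf0 k hk).le)).mp hfsplit
          have h2 := (Finset.sum_eq_zero_iff_of_nonneg (fun k _ => by
            split_ifs
            · exact hw' k
            · exact le_rfl)).mp h.symm
          obtain ⟨k, hk⟩ := hwne
          apply hk
          rw [hww]
          by_cases h3 : rt cs q U k.1 = β
          · have := h2 k.1 k.2
            rw [if_pos h3] at this
            exact this
          · have h4 := h1 k.1 k.2
            have h5 : u k.1 = w' k.1 := if_neg h3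
            rw [h5] at h4
            exact (mul_eq_zero.mp h4).resolve_right (hf0 k.1 k.2).ne'
        · exact h
      -- a nonzero coefficient
      have hk0 : ∃ k0 ∈ T, u k0 ≠ 0 := by
        by_contra hcon
        push Not at hcon
        have h1 : ∑ k ∈ T, u k * f0 (rt cs q U k) = 0 :=
          Finset.sum_eq_zero fun k hk => by rw [hcon k hk, zero_mul]
        rw [h1] at hfsplit
        have := mul_pos hwbpos hfβ
        linarith
      obtain ⟨k0, hk0T, hk0⟩ := hk0
      have hne0 : rt cs q U k0 ≠ β := by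
        intro h
        apply hk0
        exact if_pos h
      let c : ℕ → ℝ := fun k => if k = k0 then u k / wb else 0
      let c' : ℕ → ℝ := fun k => if k = k0 then 0 else u k / wb
      have hc : ∀ k, 0 ≤ c k := by
        intro k
        show 0 ≤ (if k = k0 then u k / wb else 0)
        split_ifs
        · exact div_nonneg (hu0 k) hwb0
        · exact le_rfl
      have hc' : ∀ k, 0 ≤ c' k := by
        intro k
        show 0 ≤ (if k = k0 then 0 else u k / wb)
        split_ifs
        · exact le_rfl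
        · exact div_nonneg (hu0 k) hwb0
      have hcc : (∑ k ∈ T, c k • rt cs q U k) + (∑ k ∈ T, c' k • rt cs q U k) = β := by
        rw [← Finset.sum_add_distrib]
        have h1 : ∀ k ∈ T, c k • rt cs q U k + c' k • rt cs q U k =
            wb⁻¹ • (u k • rt cs q U k) := by
          intro k _
          show (if k = k0 then u k / wb else 0) • rt cs q U k +
            (if k = k0 then 0 else u k / wb) • rt cs q U k = _
          by_cases h : k = k0
          · rw [if_pos h, if_pos h, zero_smul, add_zero, smul_smul, div_eq_inv_mul]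
          · rw [if_neg h, if_neg h, zero_smul, zero_add, smul_smul, div_eq_inv_mul]
        rw [Finset.sum_congr rfl h1, ← Finset.smul_sum, hsplit, smul_smul,
          inv_mul_cancel₀ hwbpos.ne', one_smul]
      obtain ⟨a, ha0, ha⟩ := hE c c' hc hc' hcc
      have h1 : (∑ k ∈ T, c k • rt cs q U k) = (u k0 / wb) • rt cs q U k0 := by
        rw [Finset.sum_eq_single k0]
        · show (if k0 = k0 then u k0 / wb else 0) • rt cs q U k0 = _
          rw [if_pos rfl]
        · intro k _ hk
          show (if k = k0 then u k / wb else 0) • rt cs q U k = 0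
          rw [if_neg hk, zero_smul]
        · intro h; exact absurd hk0T h
      have h2 : (u k0 / wb) • rt cs q U k0 = a • β := by rw [← h1]; exact ha
      have hcoef : u k0 / wb ≠ 0 := div_ne_zero hk0 hwbpos.ne'
      have h3 : rt cs q U k0 = ((u k0 / wb)⁻¹ * a) • β := by
        rw [mul_smul, ← h2, smul_smul, inv_mul_cancel₀ hcoef, one_smul]
      rcases hB.rt_par _ _ _ (rt_isRt cs q U k0) hβ h3 with h4 | h4
      · exact hne0 h4
      · have h5 := hf0 k0 hk0T
        rw [h4] at h5
        have h6 : f0 (-β) = - f0 β := by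
          show ∑ i, geo cs π⁻¹ (-β) i = - ∑ i, geo cs π⁻¹ β i
          rw [map_neg, ← Finset.sum_neg_distrib]
          rfl
        rw [h6] at h5
        linarith
  obtain ⟨F, hFβ, hFr⟩ := key
  obtain ⟨v', hv'⟩ := exists_dominant cs hB F
  have hβ' : geo cs v'⁻¹ β ≤ 0 := by
    have h1 : 0 < F (-β) := by rw [map_neg]; linarith
    have h2 := pos_of_dominant cs hB F v' hv' (-β) (hB.rt_neg _ hβ) h1
    rw [map_neg] at h2
    exact neg_nonneg.mp h2
  exact gallery cs hB n q U β hβ v' hβ'
    (fun k hk hkU hne => pos_of_dominant cs hB F v' hv' _ (rt_isRt cs q U k)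
      (hFr k ((hT k).mpr ⟨hk, hkU⟩) hne)) _ π rfl hπ (hπ g hg hgU)

end Pool.Agent.W932.SC
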